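import Mathlib

/-!
# Few distinct sets, part 4: blocks of the lattice of tight sets
-/

set_option autoImplicit false

namespace Pool.Agent.H31F

open Finset

/-- Rank function. -/
structure Rk {α : Type*} [DecidableEq α] (r : Finset α → ℕ) : Prop where
  emp : r ∅ = 0
  mono : ∀ A B, A ⊆ B → r A ≤ r B
  card : ∀ A, r A ≤ A.card
  sub : ∀ A B, r (A ∪ B) + r (A ∩ B) ≤ r A + r B

/-- `y` lies in the independent set polytope on `E`. -/
structure Fea {α : Type*} [DecidableEq α] (E : Finset α) (r : Finset α → ℕ) (y : α → ℝ) :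
    Prop where
  nn : ∀ e ∈ E, 0 ≤ y e
  le : ∀ A, A ⊆ E → ∑ e ∈ A, y e ≤ r A

/-- Fractional elements. -/
noncomputable def frac {α : Type*} [DecidableEq α] (E : Finset α) (y : α → ℝ) : Finset α := by
  classical
  exact E.filter (fun e => 0 < y e ∧ y e < 1)

theorem mem_frac {α : Type*} [DecidableEq α] {E : Finset α} {y : α → ℝ} {e : α} :
    e ∈ frac E y ↔ e ∈ E ∧ 0 < y e ∧ y e < 1 := by
  classical
  unfold frac
  rw [mem_filter]

/-- The parts of the fractional elements. -/
structure Parts {α : Type*} [DecidableEq α] (E : Finset α) (r : Finset α → ℕ) (y : α → ℝ)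
    (D : α → Finset α) : Prop where
  self : ∀ e ∈ E, e ∈ D e
  int : ∀ e ∈ E, ∃ t : ℤ, ∑ f ∈ (frac E y).filter (fun f => D f = D e), y f = t
  tight : ∀ A, A ⊆ E → ∑ e ∈ A, y e = r A → ∀ e ∈ A, ∀ f ∈ E, D f = D e → f ∈ A
  ind : ∀ Z, Z ⊆ E → (∀ e ∈ Z, 0 < y e) →
    (∀ e ∈ Z, ∀ f ∈ Z, y e < 1 → y f < 1 → D e = D f → e = f) → r Z = Z.card

section
variable {α : Type*} [DecidableEq α] {E : Finset α} {r : Finset α → ℕ} {y : α → ℝ}

/-- Members of the lattice: tight sets and `E`. -/
def Lat (E : Finset α) (r : Finset α → ℕ) (y : α → ℝ) (A : Finset α) : Prop :=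
  A ⊆ E ∧ (∑ e ∈ A, y e = r A ∨ A = E)

theorem lat_top : Lat E r y E := ⟨Subset.rfl, Or.inr rfl⟩

theorem lat_empty (hr : Rk r) : Lat E r y ∅ := ⟨empty_subset _, Or.inl (by simp [hr.emp])⟩

theorem lat_both (hr : Rk r) (hy : Fea E r y) {A B : Finset α} (hA : A ⊆ E) (hB : B ⊆ E)
    (eA : ∑ e ∈ A, y e = r A) (eB : ∑ e ∈ B, y e = r B) :
    ∑ e ∈ A ∪ B, y e = r (A ∪ B) ∧ ∑ e ∈ A ∩ B, y e = r (A ∩ B) := by
  have h1 := hy.le (A ∪ B) (union_subset hA hB)
  have h2 := hy.le (A ∩ B) (inter_subset_left.trans hA)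
  have h3 := sum_union_inter (s₁ := A) (s₂ := B) (f := y)
  have h4 : ((r (A ∪ B) : ℝ)) + r (A ∩ B) ≤ r A + r B := by exact_mod_cast hr.sub A B
  constructor
  · linarith
  · linarith

theorem lat_union (hr : Rk r) (hy : Fea E r y) {A B : Finset α} (hA : Lat E r y A)
    (hB : Lat E r y B) : Lat E r y (A ∪ B) := by
  refine ⟨union_subset hA.1 hB.1, ?_⟩
  rcases hA.2 with eA | rfl
  · rcases hB.2 with eB | rfl
    · exact Or.inl (lat_both hr hy hA.1 hB.1 eA eB).1
    · exact Or.inr (union_eq_right.mpr hA.1)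
  · exact Or.inr (union_eq_left.mpr hB.1)

theorem lat_inter (hr : Rk r) (hy : Fea E r y) {A B : Finset α} (hA : Lat E r y A)
    (hB : Lat E r y B) : Lat E r y (A ∩ B) := by
  refine ⟨inter_subset_left.trans hA.1, ?_⟩
  rcases hA.2 with eA | rfl
  · rcases hB.2 with eB | rfl
    · exact Or.inl (lat_both hr hy hA.1 hB.1 eA eB).2
    · rw [inter_eq_left.mpr hA.1]
      exact Or.inl eA
  · rw [inter_eq_right.mpr hB.1]
    exact hB.2

/-- Union over a finite set. -/
theorem lat_biUnion (hr : Rk r) (hy : Fea E r y) (s : Finset α) (D : α → Finset α)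
    (h : ∀ e ∈ s, Lat E r y (D e)) : Lat E r y (s.biUnion D) := by
  classical
  induction s using Finset.induction_on with
  | empty => simpa using lat_empty hr
  | insert a s ha ih =>
    rw [biUnion_insert]
    exact lat_union hr hy (h a (mem_insert_self _ _))
      (ih (fun e he => h e (mem_insert_of_mem he)))

/-- Smallest member of the lattice which contains `e`. -/
noncomputable def DD (E : Finset α) (r : Finset α → ℕ) (y : α → ℝ) (e : α) : Finset α := by
  classical
  exact E.filter (fun f => ∀ A, Lat E r y A → e ∈ A → f ∈ A)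

theorem mem_DD {e f : α} :
    f ∈ DD E r y e ↔ f ∈ E ∧ ∀ A, Lat E r y A → e ∈ A → f ∈ A := by
  classical
  unfold DD
  rw [mem_filter]

theorem DD_sub {e : α} {A : Finset α} (hA : Lat E r y A) (he : e ∈ A) : DD E r y e ⊆ A :=
  fun _ hf => (mem_DD.mp hf).2 A hA he

theorem DD_self {e : α} (he : e ∈ E) : e ∈ DD E r y e := mem_DD.mpr ⟨he, fun _ _ h => h⟩

theorem DD_lat (hr : Rk r) (hy : Fea E r y) {e : α} (he : e ∈ E) : Lat E r y (DD E r y e) := by
  classical
  have hne : (E.powerset.filter (fun A => Lat E r y A ∧ e ∈ A)).Nonempty :=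
    ⟨E, mem_filter.mpr ⟨mem_powerset.mpr Subset.rfl, lat_top, he⟩⟩
  have key : Lat E r y ((E.powerset.filter (fun A => Lat E r y A ∧ e ∈ A)).inf' hne id) := by
    refine inf'_induction hne id ?_ ?_
    · intro a ha b hb
      exact lat_inter hr hy ha hb
    · intro b hb
      exact (mem_filter.mp hb).2.1
  have heq : DD E r y e = (E.powerset.filter (fun A => Lat E r y A ∧ e ∈ A)).inf' hne id := by
    refine Subset.antisymm ?_ ?_
    · intro f hf
      have hmem : {f} ≤ (E.powerset.filter (fun A => Lat E r y A ∧ e ∈ A)).inf' hne id := by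
        refine le_inf' hne id (fun A hA => ?_)
        have h2 := (mem_filter.mp hA).2
        intro x hx
        rw [mem_singleton] at hx
        rw [hx]
        exact (mem_DD.mp hf).2 A h2.1 h2.2
      exact hmem (mem_singleton_self f)
    · intro f hf
      refine mem_DD.mpr ⟨key.1 hf, fun A hA heA => ?_⟩
      have hAmem : A ∈ E.powerset.filter (fun A => Lat E r y A ∧ e ∈ A) :=
        mem_filter.mpr ⟨mem_powerset.mpr hA.1, hA, heA⟩
      exact (inf'_le id hAmem : _ ≤ A) hf
  rw [heq]
  exact key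

theorem DD_mono (hr : Rk r) (hy : Fea E r y) {e f : α} (he : e ∈ E) (hf : f ∈ DD E r y e) :
    DD E r y f ⊆ DD E r y e := DD_sub (DD_lat hr hy he) hf

/-- The elements strictly below `e`. -/
noncomputable def DL (E : Finset α) (r : Finset α → ℕ) (y : α → ℝ) (e : α) : Finset α := by
  classical
  exact ((DD E r y e).filter (fun f => DD E r y f ≠ DD E r y e)).biUnion (DD E r y)

theorem DL_lat (hr : Rk r) (hy : Fea E r y) {e : α} : Lat E r y (DL E r y e) := by
  classical
  unfold DL
  refine lat_biUnion hr hy _ _ (fun f hf => ?_)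
  exact DD_lat hr hy (mem_DD.mp (mem_filter.mp hf).1).1

theorem mem_DL (hr : Rk r) (hy : Fea E r y) {e f : α} (he : e ∈ E) :
    f ∈ DL E r y e ↔ f ∈ DD E r y e ∧ DD E r y f ≠ DD E r y e := by
  classical
  constructor
  · intro hf
    unfold DL at hf
    obtain ⟨g, hg, hfg⟩ := mem_biUnion.mp hf
    obtain ⟨hg1, hg2⟩ := mem_filter.mp hg
    have hgE : g ∈ E := (mem_DD.mp hg1).1
    have h1 : DD E r y g ⊆ DD E r y e := DD_mono hr hy he hg1
    refine ⟨h1 hfg, fun heq => hg2 ?_⟩
    refine Subset.antisymm h1 ?_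
    rw [← heq]
    exact DD_mono hr hy hgE hfg
  · rintro ⟨h1, h2⟩
    unfold DL
    exact mem_biUnion.mpr ⟨f, mem_filter.mpr ⟨h1, h2⟩, DD_self (mem_DD.mp h1).1⟩

/-- The full class of `e`. -/
noncomputable def CL (E : Finset α) (r : Finset α → ℕ) (y : α → ℝ) (e : α) : Finset α := by
  classical
  exact E.filter (fun f => DD E r y f = DD E r y e)

theorem mem_CL {e f : α} : f ∈ CL E r y e ↔ f ∈ E ∧ DD E r y f = DD E r y e := by
  classical
  unfold CL
  rw [mem_filter]

theorem CL_eq (hr : Rk r) (hy : Fea E r y) {e : α} (he : e ∈ E) :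
    CL E r y e = DD E r y e \ DL E r y e := by
  ext f
  rw [mem_CL, mem_sdiff, mem_DL hr hy he]
  constructor
  · rintro ⟨h1, h2⟩
    refine ⟨?_, fun h => h.2 h2⟩
    rw [← h2]
    exact DD_self h1
  · rintro ⟨h1, h2⟩
    refine ⟨(mem_DD.mp h1).1, ?_⟩
    by_contra hne
    exact h2 ⟨h1, hne⟩

theorem lat_int {N : ℕ} (hN : ∑ e ∈ E, y e = N) {A : Finset α} (hA : Lat E r y A) :
    ∃ t : ℤ, ∑ e ∈ A, y e = t := by
  rcases hA.2 with h | rfl
  · exact ⟨r A, by rw [h]; simp⟩
  · exact ⟨N, by rw [hN]; simp⟩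

theorem CL_int (hr : Rk r) (hy : Fea E r y) {N : ℕ} (hN : ∑ e ∈ E, y e = N) {e : α}
    (he : e ∈ E) : ∃ t : ℤ, ∑ f ∈ CL E r y e, y f = t := by
  obtain ⟨t1, h1⟩ := lat_int hN (DD_lat hr hy he)
  obtain ⟨t2, h2⟩ := lat_int hN (DL_lat hr hy (e := e))
  have hsub : DL E r y e ⊆ DD E r y e := fun f hf => ((mem_DL hr hy he).mp hf).1
  refine ⟨t1 - t2, ?_⟩
  rw [CL_eq hr hy he]
  have h3 := sum_sdiff hsub (f := y)
  push_cast
  linarith

/-- Independence of transversals. -/
theorem indep_aux (hr : Rk r) (hy : Fea E r y)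
    (h1y : ∀ e ∈ E, y e ≤ 1) {Z : Finset α} (hZE : Z ⊆ E) (hpos : ∀ e ∈ Z, 0 < y e)
    (hZ : ∀ e ∈ Z, ∀ f ∈ Z, y e < 1 → y f < 1 → DD E r y e = DD E r y f → e = f) (n : ℕ) :
    ∀ W, Lat E r y W → W.card = n → (Z ∩ W).card ≤ r (Z ∩ W) := by
  classical
  induction n using Nat.strong_induction_on with
  | _ n ih =>
    intro W hW hWn
    rcases (Z ∩ W).eq_empty_or_nonempty with h0 | hne
    · rw [h0]
      simp
    · -- the smallest lattice member over `Z ∩ W`
      have hU : Lat E r y ((Z ∩ W).biUnion (DD E r y)) :=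
        lat_biUnion hr hy _ _ (fun e he => DD_lat hr hy (hZE (mem_inter.mp he).1))
      have hUW : (Z ∩ W).biUnion (DD E r y) ⊆ W := by
        intro f hf
        obtain ⟨e, he, hfe⟩ := mem_biUnion.mp hf
        exact DD_sub hW (mem_inter.mp he).2 hfe
      obtain ⟨e, he, hmax⟩ := exists_max_image (Z ∩ W) (fun e => (DD E r y e).card) hne
      have heZ : e ∈ Z := (mem_inter.mp he).1
      have heE : e ∈ E := hZE heZ
      -- the rest
      set W' : Finset α := (((Z ∩ W).filter (fun z => DD E r y z ≠ DD E r y e)).biUnion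
        (DD E r y)) ∪ DL E r y e with hW'
      have hW'L : Lat E r y W' := by
        refine lat_union hr hy (lat_biUnion hr hy _ _ (fun z hz => ?_)) (DL_lat hr hy)
        exact DD_lat hr hy (hZE (mem_inter.mp (mem_filter.mp hz).1).1)
      have hnot : ∀ f ∈ W', DD E r y f ≠ DD E r y e := by
        intro f hf heq
        rcases mem_union.mp hf with hf | hf
        · obtain ⟨z, hz, hfz⟩ := mem_biUnion.mp hf
          obtain ⟨hz1, hz2⟩ := mem_filter.mp hz
          have hzE : z ∈ E := hZE (mem_inter.mp hz1).1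
          have h1 : DD E r y e ⊆ DD E r y z := by
            rw [← heq]
            exact DD_mono hr hy hzE hfz
          exact hz2 (eq_of_subset_of_card_le h1 (hmax z hz1)).symm
        · exact ((mem_DL hr hy heE).mp hf).2 heq
      have hW'W : W' ⊆ W := by
        intro f hf
        rcases mem_union.mp hf with hf | hf
        · obtain ⟨z, hz, hfz⟩ := mem_biUnion.mp hf
          exact DD_sub hW (mem_inter.mp (mem_filter.mp hz).1).2 hfz
        · exact DD_sub hW (mem_inter.mp he).2 ((mem_DL hr hy heE).mp hf).1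
      have heW' : e ∉ W' := fun h => hnot e h rfl
      have hlt : W'.card < n := by
        rw [← hWn]
        refine card_lt_card ?_
        rw [ssubset_iff_of_subset hW'W]
        exact ⟨e, (mem_inter.mp he).2, heW'⟩
      have hIH := ih _ hlt W' hW'L rfl
      have htight : ∑ f ∈ W', y f = r W' := by
        rcases hW'L.2 with h | h
        · exact h
        · exact absurd (h ▸ heE) heW'
      -- the new elements
      set Ze : Finset α := (Z ∩ W).filter (fun z => DD E r y z = DD E r y e) with hZe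
      have hsplit : Z ∩ W = (Z ∩ W') ∪ Ze := by
        ext f
        rw [mem_union, mem_inter, mem_inter, hZe, mem_filter, mem_inter]
        constructor
        · rintro ⟨h1, h2⟩
          by_cases h3 : DD E r y f = DD E r y e
          · exact Or.inr ⟨⟨h1, h2⟩, h3⟩
          · left
            refine ⟨h1, mem_union_left _ ?_⟩
            exact mem_biUnion.mpr ⟨f, mem_filter.mpr ⟨mem_inter.mpr ⟨h1, h2⟩, h3⟩,
              DD_self (hZE h1)⟩
        · rintro (⟨h1, h2⟩ | ⟨h1, _⟩)
          · exact ⟨h1, hW'W h2⟩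
          · exact h1
      have hdisj : Disjoint W' Ze := by
        rw [disjoint_left]
        intro f hf hf'
        exact hnot f hf (mem_filter.mp hf').2
      have hZeE : Ze ⊆ E := fun f hf => hZE (mem_inter.mp (mem_filter.mp hf).1).1
      -- the value on the new elements
      have hval : (Ze.card : ℝ) - 1 < ∑ f ∈ Ze, y f := by
        by_cases hex : ∃ z ∈ Ze, y z < 1
        · obtain ⟨z, hz, hz1⟩ := hex
          have hzZ : z ∈ Z := (mem_inter.mp (mem_filter.mp hz).1).1
          have hrest : ∑ f ∈ Ze.erase z, y f = ∑ f ∈ Ze.erase z, (1 : ℝ) := by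
            refine sum_congr rfl (fun f hf => ?_)
            obtain ⟨hfz, hfZ⟩ := mem_erase.mp hf
            have hfZ' : f ∈ Z := (mem_inter.mp (mem_filter.mp hfZ).1).1
            refine le_antisymm (h1y f (hZE hfZ')) ?_
            by_contra hlt'
            refine hfz (hZ f hfZ' z hzZ (not_le.mp hlt') hz1 ?_)
            rw [(mem_filter.mp hfZ).2, (mem_filter.mp hz).2]
          rw [← add_sum_erase Ze y hz, hrest]
          have hc : ((Ze.erase z).card : ℝ) = (Ze.card : ℝ) - 1 := by
            rw [card_erase_of_mem hz]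
            have : 1 ≤ Ze.card := card_pos.mpr ⟨z, hz⟩
            push_cast [Nat.cast_sub this]
            ring
          rw [sum_const, nsmul_eq_mul, mul_one, hc]
          linarith [hpos z hzZ]
        · push Not at hex
          have : ∑ f ∈ Ze, y f = ∑ f ∈ Ze, (1 : ℝ) := by
            refine sum_congr rfl (fun f hf => le_antisymm (h1y f (hZeE hf)) (hex f hf))
          rw [this, sum_const, nsmul_eq_mul, mul_one]
          linarith
      have h5 : r W' + Ze.card ≤ r (W' ∪ Ze) := by
        have h6 := hy.le (W' ∪ Ze) (union_subset hW'L.1 hZeE)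
        rw [sum_union hdisj, htight] at h6
        have h7 : (r W' : ℝ) + Ze.card - 1 < r (W' ∪ Ze) := by linarith
        have h8 : ((r W' + Ze.card : ℕ) : ℝ) < ((r (W' ∪ Ze) + 1 : ℕ) : ℝ) := by
          push_cast
          linarith
        have h9 : r W' + Ze.card < r (W' ∪ Ze) + 1 := by exact_mod_cast h8
        omega
      have h10 := hr.sub W' (Z ∩ W)
      have h11 : W' ∪ (Z ∩ W) = W' ∪ Ze := by
        rw [hsplit, ← union_assoc]
        congr 1
        exact union_eq_left.mpr inter_subset_right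
      have h12 : W' ∩ (Z ∩ W) = Z ∩ W' := by
        ext f
        simp only [mem_inter]
        constructor
        · rintro ⟨h1, h2, _⟩
          exact ⟨h2, h1⟩
        · rintro ⟨h1, h2⟩
          exact ⟨h2, h1, hW'W h2⟩
      rw [h11, h12] at h10
      have h13 : (Z ∩ W).card = (Z ∩ W').card + Ze.card := by
        conv_lhs => rw [hsplit]
        refine card_union_of_disjoint ?_
        exact disjoint_of_subset_left inter_subset_right hdisj
      omega

theorem parts_of (hr : Rk r) (hy : Fea E r y) {N : ℕ}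
    (hN : ∑ e ∈ E, y e = N) : Parts E r y (DD E r y) := by
  classical
  have h1y : ∀ e ∈ E, y e ≤ 1 := by
    intro e he
    have h1 := hy.le {e} (singleton_subset_iff.mpr he)
    have h2 := hr.card {e}
    rw [sum_singleton] at h1
    rw [card_singleton] at h2
    have h3 : (r {e} : ℝ) ≤ 1 := by exact_mod_cast h2
    linarith
  refine ⟨fun e he => DD_self he, ?_, ?_, ?_⟩
  · intro e he
    obtain ⟨t, ht⟩ := CL_int hr hy hN he
    -- split the class into fractional and integral elements
    have hsp := sum_filter_add_sum_filter_not (CL E r y e) (fun f => 0 < y f ∧ y f < 1) y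
    have e1 : (CL E r y e).filter (fun f => 0 < y f ∧ y f < 1) =
        (frac E y).filter (fun f => DD E r y f = DD E r y e) := by
      ext f
      rw [mem_filter, mem_CL, mem_filter, mem_frac]
      tauto
    have e2 : ∑ f ∈ (CL E r y e).filter (fun f => ¬ (0 < y f ∧ y f < 1)), y f =
        (((CL E r y e).filter (fun f => ¬ (0 < y f ∧ y f < 1) ∧ y f = 1)).card : ℝ) := by
      rw [card_filter]
      push_cast
      rw [sum_filter]
      refine sum_congr rfl (fun f hf => ?_)
      have hfE : f ∈ E := (mem_CL.mp hf).1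
      by_cases h1 : 0 < y f ∧ y f < 1
      · simp [h1]
      · rw [if_pos h1]
        by_cases h2 : y f = 1
        · rw [if_pos ⟨h1, h2⟩, h2]
        · rw [if_neg (fun h => h2 h.2)]
          have h3 : ¬ 0 < y f := by
            intro h4
            exact h1 ⟨h4, lt_of_le_of_ne (h1y f hfE) h2⟩
          exact le_antisymm (not_lt.mp h3) (hy.nn f hfE)
    refine ⟨t - ((CL E r y e).filter (fun f => ¬ (0 < y f ∧ y f < 1) ∧ y f = 1)).card, ?_⟩
    rw [← e1]
    push_cast
    linarith
  · intro A hA hAt e heA f hf hDD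
    have h1 : DD E r y e ⊆ A := DD_sub ⟨hA, Or.inl hAt⟩ heA
    apply h1
    rw [← hDD]
    exact DD_self hf
  · intro Z hZE hpos hZ
    refine le_antisymm (hr.card Z) ?_
    have := indep_aux hr hy h1y hZE hpos hZ _ E lat_top rfl
    rwa [inter_eq_left.mpr hZE] at this

end

end Pool.Agent.H31F
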