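import Pool.Agent.Helper31_FEW.Flat
import Pool.Agent.Helper69_FD.Halve

/-!
# Few distinct sets, part 9: mixing two configurations with few cuts
-/

set_option autoImplicit false

namespace Pool.Agent.H31F

open Finset

/-- Halving in the form which is used: the set `C` of the cuts. -/
theorem halve' {κ : Type*} [Fintype κ] (M : ℕ) (w : ℕ → κ → ℝ) (hw1 : ∀ i j, |w i j| ≤ 1)
    (hw2 : ∀ i j j', w i j ≠ 0 → w i j' ≠ 0 → j = j') :
    ∃ (C : Finset ℕ) (s : ℕ → ℝ), C.card ≤ Fintype.card κ ∧ (∀ i, s i = 1 ∨ s i = -1) ∧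
      (∀ a b, a < b → b < M → s a ≠ s b → ∃ c ∈ C, a < c ∧ c ≤ b) ∧
      ∑ j, |∑ i ∈ range M, s i * w i j| ≤ Fintype.card κ := by
  classical
  obtain ⟨s, hs1, hs2, _, hs4⟩ := Pool.Agent.FD.halve M w hw1 hw2
  refine ⟨((range (M - 1)).filter (fun i => s i ≠ s (i + 1))).image (fun i => i + 1), s,
    card_image_le.trans hs2, hs1, ?_, hs4⟩
  intro a b hab hb hne
  by_contra hcon
  push Not at hcon
  apply hne
  have key : ∀ d, a + d ≤ b → s a = s (a + d) := by
    intro d
    induction d with
    | zero =>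
      intro _
      rfl
    | succ d ih =>
      intro hd
      rw [ih (by omega)]
      by_contra hne'
      have h1 : a + d + 1 ∈ ((range (M - 1)).filter (fun i => s i ≠ s (i + 1))).image
          (fun i => i + 1) :=
        mem_image.mpr ⟨a + d, mem_filter.mpr ⟨mem_range.mpr (by omega), hne'⟩, rfl⟩
      have h2 := hcon (a + d + 1) h1 (by omega)
      omega
  have := key (b - a) (by omega)
  rwa [show a + (b - a) = b by omega] at this

section
variable {α κ : Type*} [DecidableEq α] [DecidableEq κ]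

/-- Number of elements of colour `j`. -/
noncomputable def cn (col : α → κ) (R : Finset α) (j : κ) : ℝ :=
  ((R.filter (fun x => col x = j)).card : ℝ)

/-- No two adjacent elements. -/
def Free (A B : α → α → Prop) (R : Finset α) : Prop := ∀ x ∈ R, ∀ z ∈ R, ¬ Adj A B x z

omit [DecidableEq α] in
theorem cn_nonneg (col : α → κ) (R : Finset α) (j : κ) : 0 ≤ cn col R j := by
  unfold cn
  positivity

omit [DecidableEq α] in
theorem cn_sum [Fintype κ] (col : α → κ) (R : Finset α) : ∑ j, cn col R j = R.card := by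
  unfold cn
  rw [card_eq_sum_card_fiberwise (s := R) (t := univ) (f := col) (fun _ _ => mem_univ _)]
  push_cast
  rfl

theorem cn_eq {A B : α → α → Prop} {G : Finset α} {M : ℕ} {g : ℕ → α} {st : ℕ → ℕ}
    {c2 : α → Prop} (hF : Flat A B G M g st c2) (col : α → κ) {R : Finset α} (hR : R ⊆ G)
    (j : κ) : cn col R j =
      ∑ i ∈ range M, if col (g i) = j then (if g i ∈ R then (1 : ℝ) else 0) else 0 := by
  classical
  have h1 : R.filter (fun x => col x = j) =
      ((range M).filter (fun i => col (g i) = j ∧ g i ∈ R)).image g := by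
    ext x
    rw [mem_filter, mem_image]
    constructor
    · rintro ⟨hx, hc⟩
      obtain ⟨i, hi, rfl⟩ := hF.sur x (hR hx)
      exact ⟨i, mem_filter.mpr ⟨mem_range.mpr hi, hc, hx⟩, rfl⟩
    · rintro ⟨i, hi, rfl⟩
      obtain ⟨_, hc, hx⟩ := mem_filter.mp hi
      exact ⟨hx, hc⟩
  unfold cn
  rw [h1, card_image_of_injOn, card_filter]
  · push_cast
    refine sum_congr rfl (fun i _ => ?_)
    by_cases h2 : col (g i) = j <;> by_cases h3 : g i ∈ R <;> simp [h2, h3]
  · intro a ha b hb hab
    have ha' := mem_range.mp (mem_filter.mp (mem_coe.mp ha)).1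
    have hb' := mem_range.mp (mem_filter.mp (mem_coe.mp hb)).1
    exact hF.inj a b ha' hb' hab

/-- The mixed set. -/
noncomputable def QQ (M : ℕ) (g : ℕ → α) (s : ℕ → ℝ) (R R' : Finset α) : Finset α := by
  classical
  exact ((range M).filter (fun i => (s i = 1 ∧ g i ∈ R) ∨ (s i = -1 ∧ g i ∈ R'))).image g

omit [DecidableEq κ] in
theorem QQ_sub {A B : α → α → Prop} {G : Finset α} {M : ℕ} {g : ℕ → α} {st : ℕ → ℕ}
    {c2 : α → Prop} (hF : Flat A B G M g st c2) (s : ℕ → ℝ) (R R' : Finset α) :
    QQ M g s R R' ⊆ G := by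
  classical
  intro x hx
  unfold QQ at hx
  obtain ⟨i, hi, rfl⟩ := mem_image.mp hx
  exact hF.mem i (mem_range.mp (mem_filter.mp hi).1)

omit [DecidableEq κ] in
theorem mem_QQ {A B : α → α → Prop} {G : Finset α} {M : ℕ} {g : ℕ → α} {st : ℕ → ℕ}
    {c2 : α → Prop} (hF : Flat A B G M g st c2) (s : ℕ → ℝ) (R R' : Finset α) {i : ℕ}
    (hi : i < M) : g i ∈ QQ M g s R R' ↔ (s i = 1 ∧ g i ∈ R) ∨ (s i = -1 ∧ g i ∈ R') := by
  classical
  unfold QQ
  constructor
  · intro hx
    obtain ⟨i', hi', he⟩ := mem_image.mp hx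
    obtain ⟨h1, h2⟩ := mem_filter.mp hi'
    have := hF.inj i' i (mem_range.mp h1) hi he
    rwa [this] at h2
  · intro h
    exact mem_image.mpr ⟨i, mem_filter.mpr ⟨mem_range.mpr hi, h⟩, rfl⟩

/-- The weights. -/
noncomputable def ww (col : α → κ) (g : ℕ → α) (R R' : Finset α) (i : ℕ) (j : κ) : ℝ := by
  classical
  exact if col (g i) = j then
    ((if g i ∈ R then (1 : ℝ) else 0) - (if g i ∈ R' then (1 : ℝ) else 0)) else 0

theorem cn_QQ {A B : α → α → Prop} {G : Finset α} {M : ℕ} {g : ℕ → α} {st : ℕ → ℕ}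
    {c2 : α → Prop} (hF : Flat A B G M g st c2) (col : α → κ) (s : ℕ → ℝ)
    (hs1 : ∀ i, s i = 1 ∨ s i = -1) {R R' : Finset α} (hRG : R ⊆ G) (hRG' : R' ⊆ G) (j : κ) :
    cn col (QQ M g s R R') j = (cn col R j + cn col R' j) / 2 +
      (∑ i ∈ range M, s i * ww col g R R' i j) / 2 := by
  classical
  rw [cn_eq hF col (QQ_sub hF s R R'), cn_eq hF col hRG, cn_eq hF col hRG', ← sum_add_distrib,
    sum_div, sum_div, ← sum_add_distrib]
  refine sum_congr rfl (fun i hi => ?_)
  have hm := mem_QQ hF s R R' (mem_range.mp hi)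
  unfold ww
  by_cases hc : col (g i) = j
  · rcases hs1 i with h1 | h1
    · have h2 : g i ∈ QQ M g s R R' ↔ g i ∈ R := by
        rw [hm, h1]
        constructor
        · rintro (h | h)
          · exact h.2
          · exfalso
            linarith [h.1]
        · intro h
          exact Or.inl ⟨rfl, h⟩
      simp only [hc, if_true, h1, h2]
      ring
    · have h2 : g i ∈ QQ M g s R R' ↔ g i ∈ R' := by
        rw [hm, h1]
        constructor
        · rintro (h | h)
          · exfalso
            linarith [h.1]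
          · exact h.2
        · intro h
          exact Or.inr ⟨rfl, h⟩
      simp only [hc, if_true, h1, h2]
      ring
  · simp [hc]

/-- A conflict. -/
def Conf (g : ℕ → α) (s : ℕ → ℝ) (R R' : Finset α) (a b : ℕ) : Prop :=
  (s a = 1 ∧ g a ∈ R ∧ s b = -1 ∧ g b ∈ R') ∨ (s a = -1 ∧ g a ∈ R' ∧ s b = 1 ∧ g b ∈ R)

omit [DecidableEq α] [DecidableEq κ] in
theorem conf_neg {A B : α → α → Prop} {g : ℕ → α} {s : ℕ → ℝ} {R R' : Finset α}
    (hR : Free A B R) (hR' : Free A B R') {a b : ℕ} (hadj : Adj A B (g a) (g b))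
    (h1 : Conf g s R R' a b) (h2 : Conf g (fun i => - s i) R R' a b) : False := by
  rcases h1 with ⟨p1, p2, p3, p4⟩ | ⟨p1, p2, p3, p4⟩
  · rcases h2 with ⟨q1, q2, q3, q4⟩ | ⟨q1, q2, q3, q4⟩
    · have q1' : - s a = 1 := q1
      linarith
    · exact hR _ p2 _ q4 hadj
  · rcases h2 with ⟨q1, q2, q3, q4⟩ | ⟨q1, q2, q3, q4⟩
    · exact hR _ q2 _ p4 hadj
    · have q1' : - s a = -1 := q1
      linarith

/-- Cuts with a conflict of consecutive elements. -/
noncomputable def X1 (A B : α → α → Prop) (C : Finset ℕ) (g : ℕ → α) (s : ℕ → ℝ)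
    (R R' : Finset α) : Finset ℕ := by
  classical
  exact C.filter (fun c => Adj A B (g (c - 1)) (g c) ∧ Conf g s R R' (c - 1) c)

/-- Cuts with a conflict at the closing pair. -/
noncomputable def X2 (A B : α → α → Prop) (M : ℕ) (C : Finset ℕ) (g : ℕ → α) (st : ℕ → ℕ)
    (s : ℕ → ℝ) (R R' : Finset α) : Finset ℕ := by
  classical
  exact C.filter (fun c => ∃ b, st c + 1 < b ∧ b < M ∧ Adj A B (g (st c)) (g b) ∧
    Conf g s R R' (st c) b)

omit [DecidableEq κ] in
theorem mix_one {A B : α → α → Prop} (hT : Two A B) {G : Finset α} {M : ℕ} {g : ℕ → α}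
    {st : ℕ → ℕ} {c2 : α → Prop} (hF : Flat A B G M g st c2) {R R' : Finset α}
    (hR : Free A B R) (hR' : Free A B R') (C : Finset ℕ) (s : ℕ → ℝ)
    (hs1 : ∀ i, s i = 1 ∨ s i = -1)
    (hs2 : ∀ a b, a < b → b < M → s a ≠ s b → ∃ c ∈ C, a < c ∧ c ≤ b) :
    ∃ D : Finset α, D.card ≤ (X1 A B C g s R R').card + (X2 A B M C g st s R R').card ∧
      Free A B (QQ M g s R R' \ D) := by
  classical
  refine ⟨(X1 A B C g s R R').image g ∪ (X2 A B M C g st s R R').image (fun c => g (st c)),
    (card_union_le _ _).trans (add_le_add card_image_le card_image_le), ?_⟩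
  have hsep : ∀ a b, a < b → b < M → g a ∈ QQ M g s R R' → g b ∈ QQ M g s R R' →
      Adj A B (g a) (g b) → g b ∈ (X1 A B C g s R R').image g ∨
        g a ∈ (X2 A B M C g st s R R').image (fun c => g (st c)) := by
    intro a b hab hb ha1 hb1 hadj
    have ma := (mem_QQ hF s R R' (hab.trans hb)).mp ha1
    have mb := (mem_QQ hF s R R' hb).mp hb1
    have hconf : Conf g s R R' a b := by
      rcases ma with ⟨h1, h2⟩ | ⟨h1, h2⟩
      · rcases mb with ⟨h3, h4⟩ | ⟨h3, h4⟩
        · exact absurd hadj (hR _ h2 _ h4)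
        · exact Or.inl ⟨h1, h2, h3, h4⟩
      · rcases mb with ⟨h3, h4⟩ | ⟨h3, h4⟩
        · exact Or.inr ⟨h1, h2, h3, h4⟩
        · exact absurd hadj (hR' _ h2 _ h4)
    have hne : s a ≠ s b := by
      intro heq
      rcases hconf with ⟨h1, _, h3, _⟩ | ⟨h1, _, h3, _⟩
      · rw [h1, h3] at heq
        norm_num at heq
      · rw [h1, h3] at heq
        norm_num at heq
    obtain ⟨c, hcC, hc1, hc2⟩ := hs2 a b hab hb hne
    by_cases hb1 : b = a + 1
    · left
      have hcb : c = b := by omega
      refine mem_image.mpr ⟨b, ?_, rfl⟩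
      unfold X1
      rw [mem_filter]
      have hab' : b - 1 = a := by omega
      rw [hab']
      exact ⟨hcb ▸ hcC, hadj, hconf⟩
    · right
      rcases hF.loc a b hab hb hadj with h1 | h1
      · exact absurd h1 hb1
      · have hst := h1 c hc1 hc2
        refine mem_image.mpr ⟨c, ?_, by rw [hst]⟩
        unfold X2
        rw [mem_filter, hst]
        exact ⟨hcC, b, by omega, hb, hadj, hconf⟩
  intro x hx z hz hadj
  obtain ⟨hx1, hx2⟩ := mem_sdiff.mp hx
  obtain ⟨hz1, hz2⟩ := mem_sdiff.mp hz
  obtain ⟨a, ha, rfl⟩ := hF.sur x (QQ_sub hF s R R' hx1)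
  obtain ⟨b, hb, rfl⟩ := hF.sur z (QQ_sub hF s R R' hz1)
  rcases lt_trichotomy a b with h | h | h
  · rcases hsep a b h hb hx1 hz1 hadj with h1 | h1
    · exact hz2 (mem_union_left _ h1)
    · exact hx2 (mem_union_right _ h1)
  · rw [h] at hadj
    exact adj_irr hT _ hadj
  · rcases hsep b a h ha hz1 hx1 (adj_symm hT hadj) with h1 | h1
    · exact hx2 (mem_union_left _ h1)
    · exact hz2 (mem_union_right _ h1)

/-- Negative deviation after deletion. -/
theorem neg_dev [Fintype κ] {A B : α → α → Prop} {G : Finset α} {M : ℕ} {g : ℕ → α}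
    {st : ℕ → ℕ} {c2 : α → Prop} (hF : Flat A B G M g st c2) (col : α → κ) (s : ℕ → ℝ)
    (hs1 : ∀ i, s i = 1 ∨ s i = -1) {R R' : Finset α} (hRG : R ⊆ G) (hRG' : R' ⊆ G)
    (D : Finset α) :
    ∑ j, max ((cn col R j + cn col R' j) / 2 - cn col (QQ M g s R R' \ D) j) 0 ≤
      (∑ j, max (-(∑ i ∈ range M, s i * ww col g R R' i j)) 0) / 2 + (D.card : ℝ) := by
  classical
  have h1 : ∀ j, max ((cn col R j + cn col R' j) / 2 - cn col (QQ M g s R R' \ D) j) 0 ≤
      max (-(∑ i ∈ range M, s i * ww col g R R' i j)) 0 / 2 +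
        cn col (QQ M g s R R' ∩ D) j := by
    intro j
    have hdel : cn col (QQ M g s R R') j = cn col (QQ M g s R R' \ D) j +
        cn col (QQ M g s R R' ∩ D) j := by
      unfold cn
      rw [← Nat.cast_add, ← card_union_of_disjoint]
      · rw [← filter_union, sdiff_union_inter]
      · exact disjoint_of_subset_left (filter_subset _ _)
          (disjoint_of_subset_right (filter_subset _ _) (disjoint_sdiff_inter _ D))
    have hcn := cn_QQ hF col s hs1 hRG hRG' j
    have hnn := cn_nonneg col (QQ M g s R R' ∩ D) j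
    have hm1 := le_max_left (-(∑ i ∈ range M, s i * ww col g R R' i j)) 0
    have hm2 := le_max_right (-(∑ i ∈ range M, s i * ww col g R R' i j)) 0
    refine max_le ?_ ?_
    · linarith
    · linarith
  calc ∑ j, max ((cn col R j + cn col R' j) / 2 - cn col (QQ M g s R R' \ D) j) 0
      ≤ ∑ j, (max (-(∑ i ∈ range M, s i * ww col g R R' i j)) 0 / 2 +
        cn col (QQ M g s R R' ∩ D) j) := sum_le_sum (fun j _ => h1 j)
    _ = (∑ j, max (-(∑ i ∈ range M, s i * ww col g R R' i j)) 0) / 2 +
        ((QQ M g s R R' ∩ D).card : ℝ) := by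
        rw [sum_add_distrib, cn_sum, sum_div]
    _ ≤ _ := by
        have : ((QQ M g s R R' ∩ D).card : ℝ) ≤ (D.card : ℝ) := by
          exact_mod_cast card_le_card inter_subset_right
        linarith

/-- Mixing. -/
theorem mix [Fintype κ] {A B : α → α → Prop} (hT : Two A B) {G : Finset α} {M : ℕ} {g : ℕ → α}
    {st : ℕ → ℕ} {c2 : α → Prop} (hF : Flat A B G M g st c2) (col : α → κ)
    {R R' : Finset α} (hRG : R ⊆ G) (hRG' : R' ⊆ G)
    (hR : Free A B R) (hR' : Free A B R') :
    ∃ Q, Q ⊆ G ∧ Free A B Q ∧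
      ∑ j, max ((cn col R j + cn col R' j) / 2 - cn col Q j) 0 ≤
        5 / 4 * (Fintype.card κ : ℝ) := by
  classical
  obtain ⟨C, s, hC, hs1, hs2, hs3⟩ := halve' M (ww col g R R')
    (by
      intro i j
      unfold ww
      by_cases h1 : col (g i) = j <;> by_cases h2 : g i ∈ R <;> by_cases h3 : g i ∈ R' <;>
        simp [h1, h2, h3])
    (by
      intro i j j' h1 h2
      unfold ww at h1 h2
      have e1 : col (g i) = j := by
        by_contra hne
        exact h1 (if_neg hne)
      have e2 : col (g i) = j' := by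
        by_contra hne
        exact h2 (if_neg hne)
      rw [← e1, e2])
  have hs1' : ∀ i, (fun i => - s i) i = 1 ∨ (fun i => - s i) i = -1 := by
    intro i
    rcases hs1 i with h | h
    · right
      simp only [h]
    · left
      simp only [h, neg_neg]
  have hs2' : ∀ a b, a < b → b < M → (fun i => - s i) a ≠ (fun i => - s i) b →
      ∃ c ∈ C, a < c ∧ c ≤ b := by
    intro a b hab hb hne
    exact hs2 a b hab hb (fun h => hne (by simp only [h]))
  obtain ⟨D, hD, hDf⟩ := mix_one hT hF hR hR' C s hs1 hs2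
  obtain ⟨D', hD', hDf'⟩ := mix_one hT hF hR hR' C (fun i => - s i) hs1' hs2'
  have n1 := neg_dev hF col s hs1 hRG hRG' D
  have n2 := neg_dev hF col (fun i => - s i) hs1' hRG hRG' D'
  have hx1 : (X1 A B C g s R R').card + (X1 A B C g (fun i => - s i) R R').card ≤ C.card := by
    rw [← card_union_of_disjoint]
    · refine card_le_card (union_subset ?_ ?_)
      · unfold X1
        exact filter_subset _ _
      · unfold X1
        exact filter_subset _ _
    · rw [disjoint_left]
      intro c h1 h2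
      unfold X1 at h1 h2
      obtain ⟨_, p1, p2⟩ := mem_filter.mp h1
      obtain ⟨_, _, q2⟩ := mem_filter.mp h2
      exact conf_neg hR hR' p1 p2 q2
  have hx2 : (X2 A B M C g st s R R').card + (X2 A B M C g st (fun i => - s i) R R').card ≤
      C.card := by
    rw [← card_union_of_disjoint]
    · refine card_le_card (union_subset ?_ ?_)
      · unfold X2
        exact filter_subset _ _
      · unfold X2
        exact filter_subset _ _
    · rw [disjoint_left]
      intro c h1 h2
      unfold X2 at h1 h2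
      obtain ⟨_, b, p1, p2, p3, p4⟩ := mem_filter.mp h1
      obtain ⟨_, b', q1, q2, q3, q4⟩ := mem_filter.mp h2
      have hbb := hF.unq (st c) b b' p1 q1 p2 q2 p3 q3
      rw [← hbb] at q4
      exact conf_neg hR hR' p3 p4 q4
  have hsum : ∑ j, max (-(∑ i ∈ range M, s i * ww col g R R' i j)) 0 +
      ∑ j, max (-(∑ i ∈ range M, (fun i => - s i) i * ww col g R R' i j)) 0 ≤
        (Fintype.card κ : ℝ) := by
    refine le_trans (le_of_eq ?_) hs3
    rw [← sum_add_distrib]
    refine sum_congr rfl (fun j _ => ?_)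
    have h1 : ∑ i ∈ range M, (fun i => - s i) i * ww col g R R' i j =
        - ∑ i ∈ range M, s i * ww col g R R' i j := by
      rw [← sum_neg_distrib]
      refine sum_congr rfl (fun i _ => ?_)
      ring
    rw [h1, neg_neg]
    rcases le_total 0 (∑ i ∈ range M, s i * ww col g R R' i j) with h | h
    · rw [abs_of_nonneg h, max_eq_right (by linarith), max_eq_left h, zero_add]
    · rw [abs_of_nonpos h, max_eq_left (by linarith), max_eq_right h, add_zero]
  have hDD : (D.card : ℝ) + (D'.card : ℝ) ≤ 2 * (Fintype.card κ : ℝ) := by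
    have : D.card + D'.card ≤ 2 * Fintype.card κ := by omega
    exact_mod_cast this
  by_cases hcase : ∑ j, max ((cn col R j + cn col R' j) / 2 -
      cn col (QQ M g s R R' \ D) j) 0 ≤ 5 / 4 * (Fintype.card κ : ℝ)
  · exact ⟨_, sdiff_subset.trans (QQ_sub hF s R R'), hDf, hcase⟩
  · refine ⟨_, sdiff_subset.trans (QQ_sub hF (fun i => - s i) R R'), hDf', ?_⟩
    linarith [not_le.mp hcase]

/-- The recursion over binary digits. -/
theorem digits [Fintype κ] {A B : α → α → Prop} (hT : Two A B) {G : Finset α} {M : ℕ}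
    {g : ℕ → α} {st : ℕ → ℕ} {c2 : α → Prop} (hF : Flat A B G M g st c2) (col : α → κ)
    (k : ℕ) : ∀ y : α → ℝ, (∀ x ∈ G, 0 ≤ y x) →
      (∀ x ∈ G, y x ≤ 1) → (∀ x ∈ G, ∀ z ∈ G, Adj A B x z → y x + y z = 1) →
      ∃ Q, Q ⊆ G ∧ Free A B Q ∧
        ∑ j, max (∑ x ∈ G.filter (fun x => col x = j), y x - cn col Q j) 0 ≤
          5 / 2 * (Fintype.card κ : ℝ) + (G.card : ℝ) / 2 ^ k := by
  classical
  induction k with
  | zero =>
    intro y h0 h1 _
    refine ⟨∅, empty_subset _, fun x hx => by simp at hx, ?_⟩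
    have e1 : ∀ j, max (∑ x ∈ G.filter (fun x => col x = j), y x - cn col ∅ j) 0 =
        ∑ x ∈ G.filter (fun x => col x = j), y x := by
      intro j
      have : cn col (∅ : Finset α) j = 0 := by
        unfold cn
        simp
      rw [this, sub_zero, max_eq_left]
      exact sum_nonneg (fun x hx => h0 x (mem_filter.mp hx).1)
    rw [sum_congr rfl (fun j _ => e1 j), sum_fiberwise_of_maps_to (fun x _ => mem_univ _)]
    have e2 : ∑ x ∈ G, y x ≤ ∑ x ∈ G, (1 : ℝ) := sum_le_sum h1
    rw [sum_const, nsmul_eq_mul, mul_one] at e2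
    rw [pow_zero, div_one]
    have : (0 : ℝ) ≤ 5 / 2 * (Fintype.card κ : ℝ) := by positivity
    linarith
  | succ k ih =>
    intro y h0 h1 h2
    let C : Finset α := G.filter (fun x => (c2 x ∧ 1 / 2 ≤ y x) ∨ (¬ c2 x ∧ 1 / 2 < y x))
    have hCG : C ⊆ G := filter_subset _ _
    have hCmem : ∀ x ∈ G, (x ∈ C ↔ (c2 x ∧ 1 / 2 ≤ y x) ∨ (¬ c2 x ∧ 1 / 2 < y x)) := by
      intro x hx
      rw [mem_filter]
      exact ⟨fun h => h.2, fun h => ⟨hx, h⟩⟩
    have hC2 : ∀ x ∈ G, ∀ z ∈ G, Adj A B x z → (x ∈ C ↔ ¬ z ∈ C) := by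
      intro x hx z hz hadj
      have hy := h2 x hx z hz hadj
      have hc := hF.two x hx z hz hadj
      rw [hCmem x hx, hCmem z hz]
      by_cases hcx : c2 x
      · have hcz : ¬ c2 z := hc.mp hcx
        constructor
        · rintro (⟨_, h⟩ | ⟨h, _⟩)
          · rintro (⟨h', _⟩ | ⟨_, h'⟩)
            · exact hcz h'
            · linarith
          · exact absurd hcx h
        · intro h
          left
          refine ⟨hcx, ?_⟩
          by_contra hlt
          exact h (Or.inr ⟨hcz, by linarith [not_le.mp hlt]⟩)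
      · have hcz : c2 z := by
          by_contra hcz
          exact hcx (hc.mpr hcz)
        constructor
        · rintro (⟨h, _⟩ | ⟨_, h⟩)
          · exact absurd h hcx
          · rintro (⟨_, h'⟩ | ⟨h', _⟩)
            · linarith
            · exact h' hcz
        · intro h
          right
          refine ⟨hcx, ?_⟩
          by_contra hlt
          exact h (Or.inl ⟨hcz, by linarith [not_lt.mp hlt]⟩)
    have hCfree : Free A B C := by
      intro x hx z hz hadj
      exact (hC2 x (hCG hx) z (hCG hz) hadj).mp hx hz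
    let y' : α → ℝ := fun x => 2 * y x - (if x ∈ C then 1 else 0)
    obtain ⟨R', hR'G, hR'f, hR'⟩ := ih y'
      (by
        intro x hx
        by_cases hxC : x ∈ C
        · simp only [y', hxC, if_true]
          rcases (hCmem x hx).mp hxC with h | h
          · linarith [h.2]
          · linarith [h.2]
        · simp only [y', hxC, if_false]
          linarith [h0 x hx])
      (by
        intro x hx
        by_cases hxC : x ∈ C
        · simp only [y', hxC, if_true]
          linarith [h1 x hx]
        · simp only [y', hxC, if_false]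
          have : y x ≤ 1 / 2 := by
            by_contra hlt
            apply hxC
            rw [hCmem x hx]
            by_cases hc : c2 x
            · exact Or.inl ⟨hc, (not_le.mp hlt).le⟩
            · exact Or.inr ⟨hc, not_le.mp hlt⟩
          linarith)
      (by
        intro x hx z hz hadj
        have hy := h2 x hx z hz hadj
        have hc := hC2 x hx z hz hadj
        by_cases hxC : x ∈ C
        · have hzC : ¬ z ∈ C := hc.mp hxC
          simp only [y', hxC, hzC, if_true, if_false]
          linarith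
        · have hzC : z ∈ C := by
            by_contra hzC
            exact hxC (hc.mpr hzC)
          simp only [y', hxC, hzC, if_true, if_false]
          linarith)
    obtain ⟨Q, hQG, hQf, hQ⟩ := mix hT hF col hCG hR'G hCfree hR'f
    refine ⟨Q, hQG, hQf, ?_⟩
    have hsum : ∀ j, ∑ x ∈ G.filter (fun x => col x = j), y' x =
        2 * ∑ x ∈ G.filter (fun x => col x = j), y x - cn col C j := by
      intro j
      have e1 : cn col C j = ∑ x ∈ G.filter (fun x => col x = j), (if x ∈ C then (1 : ℝ) else 0) := by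
        unfold cn
        rw [sum_ite, sum_const_zero, add_zero, sum_const, nsmul_eq_mul, mul_one]
        congr 2
        ext x
        simp only [mem_filter]
        constructor
        · rintro ⟨h3, h4⟩
          exact ⟨⟨hCG h3, h4⟩, h3⟩
        · rintro ⟨⟨_, h4⟩, h3⟩
          exact ⟨h3, h4⟩
      rw [e1, mul_sum, ← sum_sub_distrib]
    have hb : ∀ j, max (∑ x ∈ G.filter (fun x => col x = j), y x - cn col Q j) 0 ≤
        max ((cn col C j + cn col R' j) / 2 - cn col Q j) 0 +
          max (∑ x ∈ G.filter (fun x => col x = j), y' x - cn col R' j) 0 / 2 := by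
      intro j
      have m1 := le_max_left ((cn col C j + cn col R' j) / 2 - cn col Q j) 0
      have m2 := le_max_right ((cn col C j + cn col R' j) / 2 - cn col Q j) 0
      have m3 := le_max_left (∑ x ∈ G.filter (fun x => col x = j), y' x - cn col R' j) 0
      have m4 := le_max_right (∑ x ∈ G.filter (fun x => col x = j), y' x - cn col R' j) 0
      have h5 := hsum j
      refine max_le ?_ ?_
      · linarith
      · linarith
    calc ∑ j, max (∑ x ∈ G.filter (fun x => col x = j), y x - cn col Q j) 0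
        ≤ ∑ j, (max ((cn col C j + cn col R' j) / 2 - cn col Q j) 0 +
          max (∑ x ∈ G.filter (fun x => col x = j), y' x - cn col R' j) 0 / 2) :=
          sum_le_sum (fun j _ => hb j)
      _ = ∑ j, max ((cn col C j + cn col R' j) / 2 - cn col Q j) 0 +
          (∑ j, max (∑ x ∈ G.filter (fun x => col x = j), y' x - cn col R' j) 0) / 2 := by
          rw [sum_add_distrib, sum_div]
      _ ≤ 5 / 4 * (Fintype.card κ : ℝ) +
          (5 / 2 * (Fintype.card κ : ℝ) + (G.card : ℝ) / 2 ^ k) / 2 := by linarith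
      _ = 5 / 2 * (Fintype.card κ : ℝ) + (G.card : ℝ) / 2 ^ (k + 1) := by
          rw [pow_succ]
          field_simp
          ring

/-- Trimming. -/
theorem trim [Fintype κ] (col : α → κ) (R : Finset α) (q : κ → ℕ) :
    ∃ Q, Q ⊆ R ∧ (∀ j, (Q.filter (fun x => col x = j)).card =
      min (R.filter (fun x => col x = j)).card (q j)) := by
  classical
  have h : ∀ j, ∃ Q, Q ⊆ R.filter (fun x => col x = j) ∧
      Q.card = min (R.filter (fun x => col x = j)).card (q j) :=
    fun j => exists_subset_card_eq (min_le_left _ _)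
  choose Q hQ hQc using h
  refine ⟨univ.biUnion Q, ?_, ?_⟩
  · intro x hx
    obtain ⟨j, _, hj⟩ := mem_biUnion.mp hx
    exact (mem_filter.mp (hQ j hj)).1
  · intro j
    rw [← hQc j]
    congr 1
    ext x
    rw [mem_filter, mem_biUnion]
    constructor
    · rintro ⟨⟨j', _, hj'⟩, hc⟩
      have := (mem_filter.mp (hQ j' hj')).2
      rw [← hc, this]
      exact hj'
    · intro hx
      exact ⟨⟨j, mem_univ _, hx⟩, (mem_filter.mp (hQ j hx)).2⟩

end

end Pool.Agent.H31F
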