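import Pool.Agent.Helper31_FEW.Count
import Pool.Agent.Helper31_FEW.Mix

/-!
# Few distinct sets, part 10: the core theorem
-/

set_option autoImplicit false

namespace Pool.Agent.H31F

open Finset

/-- The core theorem. -/
theorem core {α κ : Type*} [DecidableEq α] [DecidableEq κ] [Fintype κ] (E : Finset α)
    (col : α → κ) (rho sig : Finset α → ℕ) (hr : Rk rho) (hs : Rk sig) (y0 : α → ℝ)
    (hy0 : Fea E rho y0) (hy0' : Fea E sig y0) (N : ℕ) (hN0 : ∑ e ∈ E, y0 e = N) (b : κ → ℕ)
    (hb : ∀ j, ∑ e ∈ E.filter (fun e => col e = j), y0 e ≤ b j) :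
    ∃ Z, Z ⊆ E ∧ rho Z = Z.card ∧ sig Z = Z.card ∧
      (∀ j, (Z.filter (fun e => col e = j)).card ≤ b j) ∧
      6 * N ≤ 6 * Z.card + 31 * Fintype.card κ := by
  classical
  rcases isEmpty_or_nonempty α with hα | ⟨⟨a0⟩⟩
  · have hE : E = ∅ := Finset.eq_empty_of_isEmpty E
    refine ⟨∅, empty_subset _, by rw [hr.emp, card_empty], by rw [hs.emp, card_empty],
      fun j => by simp, ?_⟩
    rw [hE, sum_empty] at hN0
    have : N = 0 := by exact_mod_cast hN0.symm
    omega
  obtain ⟨y, hy, hy', hcolr, hst⟩ := stiff_exists col hr hs hy0 hy0'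
  have hN : ∑ e ∈ E, y e = N := by
    rw [← hN0, ← sum_fiberwise_of_maps_to (s := E) (t := univ) (g := col)
      (fun e _ => mem_univ _) y, ← sum_fiberwise_of_maps_to (s := E) (t := univ) (g := col)
      (fun e _ => mem_univ _) y0]
    exact sum_congr rfl (fun j _ => hcolr j)
  set D1 := DD E rho y with hD1
  set D2 := DD E sig y with hD2
  have P1 : Parts E rho y D1 := parts_of hr hy hN
  have P2 : Parts E sig y D2 := parts_of hs hy' hN
  have h1y := fea_le_one hr hy
  set F := frac E y with hFdef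
  have hFE : ∀ e ∈ F, e ∈ E := fun e he => (mem_frac.mp he).1
  have hF : ∀ e ∈ F, 0 < y e ∧ y e < 1 := fun e he => (mem_frac.mp he).2
  have i1 : ∀ e ∈ F, ∃ t : ℤ, ∑ f ∈ F.filter (fun f => D1 f = D1 e), y f = t :=
    fun e he => P1.int e (hFE e he)
  have i2 : ∀ e ∈ F, ∃ t : ℤ, ∑ f ∈ F.filter (fun f => D2 f = D2 e), y f = t :=
    fun e he => P2.int e (hFE e he)
  have hcount := dim_count P1 P2 hst
  rw [← hFdef] at hcount
  obtain ⟨K1, k1, c1⟩ := fib_keep a0 hF i1
  obtain ⟨K2, k2, c2⟩ := fib_keep a0 hF i2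
  set G : Finset α := F.filter (fun e => K1 e ∧ K2 e) with hG
  have hGF : G ⊆ F := filter_subset _ _
  have hrest : ∑ e ∈ F \ G, y e ≤ 8 / 3 * (Fintype.card κ : ℝ) := by
    have hsub : F \ G ⊆ F.filter (fun e => ¬ K1 e) ∪ F.filter (fun e => ¬ K2 e) := by
      intro e he
      rw [mem_sdiff] at he
      rw [mem_union, mem_filter, mem_filter]
      by_contra hcon
      rw [not_or, not_and, not_and, not_not, not_not] at hcon
      exact he.2 (mem_filter.mpr ⟨he.1, hcon.1 he.1, hcon.2 he.1⟩)
    have h3 : ∑ e ∈ F \ G, y e ≤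
        ∑ e ∈ F.filter (fun e => ¬ K1 e) ∪ F.filter (fun e => ¬ K2 e), y e := by
      refine sum_le_sum_of_subset_of_nonneg hsub (fun e he _ => ?_)
      rcases mem_union.mp he with h | h
      · exact (hF e (mem_filter.mp h).1).1.le
      · exact (hF e (mem_filter.mp h).1).1.le
    have h4 := sum_union_inter (s₁ := F.filter (fun e => ¬ K1 e))
      (s₂ := F.filter (fun e => ¬ K2 e)) (f := y)
    have h5 : 0 ≤ ∑ e ∈ F.filter (fun e => ¬ K1 e) ∩ F.filter (fun e => ¬ K2 e), y e :=
      sum_nonneg (fun e he => (hF e (mem_filter.mp (mem_inter.mp he).1).1).1.le)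
    have h6 : (F.card : ℝ) ≤ ((F.image D1).card : ℝ) + ((F.image D2).card : ℝ) +
        (Fintype.card κ : ℝ) := by exact_mod_cast hcount
    have c1' := c1 (F.filter (fun e => ¬ K1 e)) (filter_subset _ _)
      (fun e he => (mem_filter.mp he).2)
    have c2' := c2 (F.filter (fun e => ¬ K2 e)) (filter_subset _ _)
      (fun e he => (mem_filter.mp he).2)
    linarith
  -- the two matchings
  set A : α → α → Prop := fun e f => e ∈ G ∧ f ∈ G ∧ e ≠ f ∧ D1 e = D1 f with hA
  set B : α → α → Prop := fun e f => e ∈ G ∧ f ∈ G ∧ e ≠ f ∧ D2 e = D2 f with hB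
  have pA : ∀ e f, A e f → y e + y f = 1 ∧ ∀ g ∈ F, D1 e = D1 g → g = e ∨ g = f := by
    rintro e f ⟨he, hf, hne, hD⟩
    exact fib_pair hF i1 (hGF he) (hGF hf) hne hD
      (k1 e (hGF he) f (hGF hf) (mem_filter.mp he).2.1 (mem_filter.mp hf).2.1 hD hne)
  have pB : ∀ e f, B e f → y e + y f = 1 ∧ ∀ g ∈ F, D2 e = D2 g → g = e ∨ g = f := by
    rintro e f ⟨he, hf, hne, hD⟩
    exact fib_pair hF i2 (hGF he) (hGF hf) hne hD
      (k2 e (hGF he) f (hGF hf) (mem_filter.mp he).2.2 (mem_filter.mp hf).2.2 hD hne)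
  have hT : Two A B := by
    refine ⟨?_, ?_, ?_, ?_, ?_, ?_⟩
    · rintro x z ⟨a, b, c, d⟩
      exact ⟨b, a, c.symm, d.symm⟩
    · rintro x z ⟨a, b, c, d⟩
      exact ⟨b, a, c.symm, d.symm⟩
    · rintro x ⟨_, _, c, _⟩
      exact c rfl
    · rintro x ⟨_, _, c, _⟩
      exact c rfl
    · intro x z w h1 h2
      have h3 := (pA x z h1).2 w (hGF h2.2.1) h2.2.2.2
      rcases h3 with h3 | h3
      · exact absurd h3.symm h2.2.2.1
      · exact h3.symm
    · intro x z w h1 h2
      have h3 := (pB x z h1).2 w (hGF h2.2.1) h2.2.2.2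
      rcases h3 with h3 | h3
      · exact absurd h3.symm h2.2.2.1
      · exact h3.symm
  obtain ⟨ι, instι, m, h, cl, hD⟩ := decomp hT G.card G rfl
  obtain ⟨M, g, st, cc, hFl⟩ := flatten a0 hD
  obtain ⟨k, hk⟩ : ∃ k : ℕ, (G.card : ℝ) / 2 ^ k < 1 / 6 := by
    obtain ⟨k, hk⟩ := pow_unbounded_of_one_lt (6 * (G.card : ℝ)) (by norm_num : (1 : ℝ) < 2)
    refine ⟨k, ?_⟩
    rw [div_lt_iff₀ (by positivity)]
    linarith
  obtain ⟨R, hRG, hRf, hRdev⟩ := digits hT hFl col k y (fun x hx => (hF x (hGF hx)).1.le)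
    (fun x hx => (hF x (hGF hx)).2.le) (fun x _ z _ hadj => by
      rcases hadj with h1 | h1
      · exact (pA x z h1).1
      · exact (pB x z h1).1)
  set O : Finset α := E.filter (fun e => y e = 1) with hO
  have hO1 : ∀ e ∈ O, y e = 1 := fun e he => (mem_filter.mp he).2
  have hOG : Disjoint O G := by
    rw [disjoint_left]
    intro e he he'
    have h1 := hO1 e he
    have h2 := (hF e (hGF he')).2
    linarith
  have hOsum : ∀ S, S ⊆ O → ∑ e ∈ S, y e = S.card := by
    intro S hS
    rw [card_eq_sum_ones]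
    push_cast
    exact sum_congr rfl (fun e he => hO1 e (hS he))
  -- colour sums
  have hcolle : ∀ j, ((O.filter (fun e => col e = j)).card : ℝ) +
      ∑ e ∈ G.filter (fun e => col e = j), y e ≤ b j := by
    intro j
    have h1 := hb j
    rw [← hcolr j] at h1
    refine le_trans ?_ h1
    rw [← hOsum _ (filter_subset _ _),
      ← sum_union (disjoint_of_subset_left (filter_subset _ _)
        (disjoint_of_subset_right (filter_subset _ _) hOG)), ← filter_union]
    refine sum_le_sum_of_subset_of_nonneg ?_ (fun e he _ => hy.nn e (mem_filter.mp he).1)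
    exact filter_subset_filter _ (union_subset (filter_subset _ _) (fun e he => hFE e (hGF he)))
  have hGn : ∀ j, 0 ≤ ∑ e ∈ G.filter (fun e => col e = j), y e :=
    fun j => sum_nonneg (fun e he => (hF e (hGF (mem_filter.mp he).1)).1.le)
  have hOb : ∀ j, (O.filter (fun e => col e = j)).card ≤ b j := by
    intro j
    have h1 := hcolle j
    have h2 := hGn j
    have h3 : ((O.filter (fun e => col e = j)).card : ℝ) ≤ b j := by linarith
    exact_mod_cast h3
  obtain ⟨W, hWR, hWc⟩ := trim col R (fun j => b j - (O.filter (fun e => col e = j)).card)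
  have hWG : W ⊆ G := hWR.trans hRG
  have hdis : Disjoint O W := disjoint_of_subset_right hWG hOG
  have hWE : O ∪ W ⊆ E :=
    union_subset (filter_subset _ _) (fun e he => hFE e (hGF (hWG he)))
  have hpos : ∀ e ∈ O ∪ W, 0 < y e := by
    intro e he
    rcases mem_union.mp he with h1 | h1
    · rw [hO1 e h1]
      exact zero_lt_one
    · exact (hF e (hGF (hWG h1))).1
  have hWof : ∀ e ∈ O ∪ W, y e < 1 → e ∈ W := by
    intro e he hlt
    rcases mem_union.mp he with h1 | h1
    · rw [hO1 e h1] at hlt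
      exact absurd hlt (lt_irrefl _)
    · exact h1
  have hi1 : ∀ e ∈ O ∪ W, ∀ f ∈ O ∪ W, y e < 1 → y f < 1 → D1 e = D1 f → e = f := by
    intro e he f hf he1 hf1 hDe
    by_contra hne
    have heW := hWof e he he1
    have hfW := hWof f hf hf1
    exact hRf e (hWR heW) f (hWR hfW) (Or.inl ⟨hWG heW, hWG hfW, hne, hDe⟩)
  have hi2 : ∀ e ∈ O ∪ W, ∀ f ∈ O ∪ W, y e < 1 → y f < 1 → D2 e = D2 f → e = f := by
    intro e he f hf he1 hf1 hDe
    by_contra hne
    have heW := hWof e he he1
    have hfW := hWof f hf hf1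
    exact hRf e (hWR heW) f (hWR hfW) (Or.inr ⟨hWG heW, hWG hfW, hne, hDe⟩)
  refine ⟨O ∪ W, hWE, P1.ind _ hWE hpos hi1, P2.ind _ hWE hpos hi2, ?_, ?_⟩
  · intro j
    rw [filter_union, card_union_of_disjoint (disjoint_of_subset_left (filter_subset _ _)
          (disjoint_of_subset_right (filter_subset _ _) hdis)), hWc j]
    have h1 := hOb j
    have h2 := min_le_right (R.filter (fun e => col e = j)).card
      (b j - (O.filter (fun e => col e = j)).card)
    omega
  · -- the cardinality
    have hWcard : (∑ e ∈ G, y e) - (5 / 2 * (Fintype.card κ : ℝ) + (G.card : ℝ) / 2 ^ k) ≤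
        (W.card : ℝ) := by
      have e1 : (W.card : ℝ) = ∑ j, cn col W j := (cn_sum col W).symm
      have e2 : ∑ e ∈ G, y e = ∑ j, ∑ e ∈ G.filter (fun e => col e = j), y e :=
        (sum_fiberwise_of_maps_to (fun x _ => mem_univ _) _).symm
      have e3 : ∀ j, ∑ e ∈ G.filter (fun e => col e = j), y e -
          max (∑ x ∈ G.filter (fun x => col x = j), y x - cn col R j) 0 ≤ cn col W j := by
        intro j
        have h1 : cn col W j = ((min (R.filter (fun x => col x = j)).card
            (b j - (O.filter (fun e => col e = j)).card) : ℕ) : ℝ) := by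
          unfold cn
          rw [hWc j]
        rw [h1, Nat.cast_min, le_min_iff]
        constructor
        · have h2 := le_max_left (∑ x ∈ G.filter (fun x => col x = j), y x - cn col R j) 0
          have h3 : cn col R j = ((R.filter (fun x => col x = j)).card : ℝ) := rfl
          linarith
        · rw [Nat.cast_sub (hOb j)]
          have h2 := hcolle j
          have h3 := le_max_right (∑ x ∈ G.filter (fun x => col x = j), y x - cn col R j) 0
          linarith
      rw [e1, e2]
      have e4 := sum_le_sum (fun j (_ : j ∈ (univ : Finset κ)) => e3 j)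
      rw [sum_sub_distrib] at e4
      linarith
    have e4 : (N : ℝ) = ∑ e ∈ O, y e + (∑ e ∈ G, y e + ∑ e ∈ F \ G, y e) := by
      rw [← hN]
      have hsub : O ∪ F ⊆ E := union_subset (filter_subset _ _) (fun e he => hFE e he)
      have hOF : Disjoint O F := by
        rw [disjoint_left]
        intro e he he'
        have h1 := hO1 e he
        have h2 := (hF e he').2
        linarith
      rw [← sum_subset hsub, sum_union hOF, ← sum_sdiff hGF]
      · ring
      · intro e he hne
        rw [mem_union, not_or] at hne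
        have h1 : ¬ y e = 1 := fun h1 => hne.1 (mem_filter.mpr ⟨he, h1⟩)
        have h2 : ¬ (0 < y e ∧ y e < 1) := fun h2 => hne.2 (mem_frac.mpr ⟨he, h2⟩)
        have h3 : ¬ 0 < y e := fun h3 => h2 ⟨h3, lt_of_le_of_ne (h1y e he) h1⟩
        exact le_antisymm (not_lt.mp h3) (hy.nn e he)
    have e5 : (((O ∪ W).card : ℕ) : ℝ) = (O.card : ℝ) + (W.card : ℝ) := by
      rw [card_union_of_disjoint hdis]
      push_cast
      ring
    have e6 := hOsum O Subset.rfl
    have e7 : ((6 * N : ℕ) : ℝ) < ((6 * (O ∪ W).card + 31 * Fintype.card κ + 1 : ℕ) : ℝ) := by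
      push_cast
      rw [e5, e4, e6]
      linarith
    have e8 : 6 * N < 6 * (O ∪ W).card + 31 * Fintype.card κ + 1 := by exact_mod_cast e7
    omega

end Pool.Agent.H31F
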