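import Pool.Agent.Helper31_FEW.Ext
import Pool.Agent.Helper31_FEW.Block

/-!
# Few distinct sets, part 5: counting parts at a stiff point
-/

set_option autoImplicit false

namespace Pool.Agent.H31F

open Finset

section
variable {α κ : Type*} [DecidableEq α] [DecidableEq κ]

/-- No admissible direction. -/
def Stiff (E : Finset α) (col : α → κ) (rho sig : Finset α → ℕ) (y : α → ℝ) : Prop :=
  ∀ d : α → ℝ, (∀ e, e ∉ frac E y → d e = 0) →
    (∀ A, A ⊆ E → ∑ e ∈ A, y e = rho A → ∑ e ∈ A, d e = 0) →
    (∀ A, A ⊆ E → ∑ e ∈ A, y e = sig A → ∑ e ∈ A, d e = 0) →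
    (∀ j, ∑ e ∈ E.filter (fun e => col e = j), d e = 0) → d = 0

/-- The coordinates. -/
noncomputable def cs (E : Finset α) (rho sig : Finset α → ℕ) :
    ({e // e ∈ E} ⊕ {e // e ∈ E}) ⊕ ({A // A ∈ E.powerset} ⊕ {A // A ∈ E.powerset}) →
      (α → ℝ) → ℝ
  | Sum.inl (Sum.inl e), x => x e.1
  | Sum.inl (Sum.inr e), x => 1 - x e.1
  | Sum.inr (Sum.inl A), x => rho A.1 - ∑ e ∈ A.1, x e
  | Sum.inr (Sum.inr A), x => sig A.1 - ∑ e ∈ A.1, x e

/-- The slopes. -/
noncomputable def ck (E : Finset α) :
    ({e // e ∈ E} ⊕ {e // e ∈ E}) ⊕ ({A // A ∈ E.powerset} ⊕ {A // A ∈ E.powerset}) →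
      (α → ℝ) → ℝ
  | Sum.inl (Sum.inl e), d => d e.1
  | Sum.inl (Sum.inr e), d => - d e.1
  | Sum.inr (Sum.inl A), d => - ∑ e ∈ A.1, d e
  | Sum.inr (Sum.inr A), d => - ∑ e ∈ A.1, d e

omit [DecidableEq α] [DecidableEq κ] in
theorem sum_dir (A : Finset α) (x d : α → ℝ) (t : ℝ) :
    ∑ e ∈ A, (x + t • d) e = ∑ e ∈ A, x e + t * ∑ e ∈ A, d e := by
  rw [mul_sum, ← sum_add_distrib]
  refine sum_congr rfl (fun e _ => ?_)
  simp only [Pi.add_apply, Pi.smul_apply, smul_eq_mul]

theorem fea_le_one {E : Finset α} {r : Finset α → ℕ} {y : α → ℝ} (hr : Rk r) (hy : Fea E r y) :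
    ∀ e ∈ E, y e ≤ 1 := by
  intro e he
  have h1 := hy.le {e} (singleton_subset_iff.mpr he)
  have h2 := hr.card {e}
  rw [sum_singleton] at h1
  rw [card_singleton] at h2
  have h3 : (r {e} : ℝ) ≤ 1 := by exact_mod_cast h2
  linarith

theorem stiff_exists {E : Finset α} (col : α → κ) {rho sig : Finset α → ℕ} {y : α → ℝ}
    (hr : Rk rho) (hs : Rk sig) (hy : Fea E rho y) (hy' : Fea E sig y) :
    ∃ x : α → ℝ, Fea E rho x ∧ Fea E sig x ∧
      (∀ j, ∑ e ∈ E.filter (fun e => col e = j), x e =
        ∑ e ∈ E.filter (fun e => col e = j), y e) ∧ Stiff E col rho sig x := by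
  classical
  obtain ⟨x, hQ, hx, hext⟩ := extreme (V := α → ℝ) (cs E rho sig) (ck E)
    (fun d => (∀ e, e ∉ E → d e = 0) ∧ ∀ j, ∑ e ∈ E.filter (fun e => col e = j), d e = 0)
    (fun x => ∀ j, ∑ e ∈ E.filter (fun e => col e = j), x e =
        ∑ e ∈ E.filter (fun e => col e = j), y e)
    (by
      rintro ((e | e) | (A | A)) x d t
      · simp [cs, ck]
      · simp only [cs, ck, Pi.add_apply, Pi.smul_apply, smul_eq_mul]
        ring
      · simp only [cs, ck]
        rw [sum_dir]
        ring
      · simp only [cs, ck]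
        rw [sum_dir]
        ring)
    (by
      rintro ((e | e) | (A | A)) d
      · simp [ck]
      · simp [ck]
      · simp only [ck, Pi.neg_apply, sum_neg_distrib]
      · simp only [ck, Pi.neg_apply, sum_neg_distrib])
    (by
      rintro d ⟨h1, h2⟩
      refine ⟨fun e he => ?_, fun j => ?_⟩
      · simp [h1 e he]
      · simp only [Pi.neg_apply, sum_neg_distrib, h2 j, neg_zero])
    (by
      intro x d t hx hd j
      rw [sum_dir, hx j, hd.2 j]
      ring)
    (by
      rintro d ⟨h1, _⟩ hd
      by_contra hcon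
      push Not at hcon
      apply hd
      funext e
      by_cases he : e ∈ E
      · exact hcon (Sum.inl (Sum.inl ⟨e, he⟩))
      · exact h1 e he)
    y (fun _ => rfl)
    (by
      rintro ((e | e) | (A | A))
      · exact hy.nn e.1 e.2
      · simp only [cs]
        linarith [fea_le_one hr hy e.1 e.2]
      · simp only [cs]
        linarith [hy.le A.1 (mem_powerset.mp A.2)]
      · simp only [cs]
        linarith [hy'.le A.1 (mem_powerset.mp A.2)])
  have n0 : ∀ e ∈ E, 0 ≤ x e := fun e he => hx (Sum.inl (Sum.inl ⟨e, he⟩))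
  have n1 : ∀ e ∈ E, x e ≤ 1 := fun e he => by
    have := hx (Sum.inl (Sum.inr ⟨e, he⟩))
    simp only [cs] at this
    linarith
  refine ⟨x, ⟨n0, fun A hA => ?_⟩, ⟨n0, fun A hA => ?_⟩, hQ, ?_⟩
  · have := hx (Sum.inr (Sum.inl ⟨A, mem_powerset.mpr hA⟩))
    simp only [cs] at this
    linarith
  · have := hx (Sum.inr (Sum.inr ⟨A, mem_powerset.mpr hA⟩))
    simp only [cs] at this
    linarith
  · intro d h1 h2 h3 h4
    refine hext d ⟨fun e he => h1 e (fun h => he (mem_frac.mp h).1), h4⟩ ?_
    rintro ((e | e) | (A | A)) hc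
    · simp only [cs] at hc
      simp only [ck]
      refine h1 e.1 (fun h => ?_)
      have := (mem_frac.mp h).2.1
      linarith
    · simp only [cs] at hc
      simp only [ck]
      rw [neg_eq_zero]
      refine h1 e.1 (fun h => ?_)
      have := (mem_frac.mp h).2.2
      linarith
    · simp only [cs] at hc
      simp only [ck]
      rw [neg_eq_zero]
      refine h2 A.1 (mem_powerset.mp A.2) (by linarith)
    · simp only [cs] at hc
      simp only [ck]
      rw [neg_eq_zero]
      refine h3 A.1 (mem_powerset.mp A.2) (by linarith)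

/-- Sums over a tight set vanish if all part sums vanish. -/
theorem tight_sum {E : Finset α} {r : Finset α → ℕ} {y : α → ℝ} {D : α → Finset α}
    (hP : Parts E r y D) (d : α → ℝ) (hd : ∀ e, e ∉ frac E y → d e = 0)
    (hpart : ∀ e ∈ frac E y, ∑ f ∈ (frac E y).filter (fun f => D f = D e), d f = 0)
    {A : Finset α} (hA : A ⊆ E) (hAt : ∑ e ∈ A, y e = r A) : ∑ e ∈ A, d e = 0 := by
  classical
  have h1 : ∑ e ∈ A.filter (fun e => e ∈ frac E y), d e = ∑ e ∈ A, d e := by
    refine sum_filter_of_ne (fun e _ he => ?_)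
    by_contra hcon
    exact he (hd e hcon)
  rw [← h1]
  rw [← sum_fiberwise_of_maps_to (s := A.filter (fun e => e ∈ frac E y))
    (t := (A.filter (fun e => e ∈ frac E y)).image D) (g := D)
    (fun e he => mem_image_of_mem D he)]
  refine sum_eq_zero (fun P hPm => ?_)
  obtain ⟨e0, he0, rfl⟩ := mem_image.mp hPm
  obtain ⟨he0A, he0F⟩ := mem_filter.mp he0
  rw [← hpart e0 he0F]
  refine sum_congr ?_ (fun _ _ => rfl)
  ext f
  simp only [mem_filter]
  constructor
  · rintro ⟨⟨_, h3⟩, h4⟩
    exact ⟨h3, h4⟩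
  · rintro ⟨h3, h4⟩
    exact ⟨⟨hP.tight A hA hAt e0 he0A f (mem_frac.mp h3).1 h4, h3⟩, h4⟩

/-- The dimension count. -/
theorem dim_count [Fintype κ] {E : Finset α} {col : α → κ} {rho sig : Finset α → ℕ} {y : α → ℝ}
    {D1 D2 : α → Finset α} (h1 : Parts E rho y D1) (h2 : Parts E sig y D2)
    (hst : Stiff E col rho sig y) :
    (frac E y).card ≤ ((frac E y).image D1).card + ((frac E y).image D2).card +
      Fintype.card κ := by
  classical
  let F := frac E y
  let T := ({P // P ∈ F.image D1} ⊕ {P // P ∈ F.image D2}) ⊕ κ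
  let w : {e // e ∈ F} → T → ℝ := fun e c => match c with
    | Sum.inl (Sum.inl P) => if D1 e.1 = P.1 then 1 else 0
    | Sum.inl (Sum.inr P) => if D2 e.1 = P.1 then 1 else 0
    | Sum.inr j => if col e.1 = j then 1 else 0
  let L : ({e // e ∈ F} → ℝ) →ₗ[ℝ] (T → ℝ) :=
    { toFun := fun f c => ∑ e, f e * w e c
      map_add' := by
        intro f g
        funext c
        simp only [Pi.add_apply, add_mul, sum_add_distrib]
      map_smul' := by
        intro a f
        funext c
        simp only [Pi.smul_apply, smul_eq_mul, RingHom.id_apply, mul_sum, mul_assoc] }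
  have hL : Function.Injective L := by
    rw [injective_iff_map_eq_zero]
    intro f hf
    have hfc : ∀ c, ∑ e, f e * w e c = 0 := fun c => congrFun hf c
    let d : α → ℝ := fun e => if h : e ∈ F then f ⟨e, h⟩ else 0
    have hdF : ∀ e, e ∉ frac E y → d e = 0 := fun e he => dif_neg he
    have hdf : ∀ e : {e // e ∈ F}, d e.1 = f e := fun e => dif_pos e.2
    have key : ∀ (p : α → Prop) [DecidablePred p], ∑ e ∈ F.filter p, d e =
        ∑ e : {e // e ∈ F}, f e * (if p e.1 then 1 else 0) := by
      intro p _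
      rw [sum_filter, ← sum_attach F, univ_eq_attach]
      refine sum_congr rfl (fun e _ => ?_)
      rw [hdf]
      split_ifs <;> simp
    have hd : d = 0 := by
      refine hst d hdF ?_ ?_ ?_
      · intro A hA hAt
        refine tight_sum h1 d hdF (fun e he => ?_) hA hAt
        have := hfc (Sum.inl (Sum.inl ⟨D1 e, mem_image_of_mem D1 he⟩))
        rw [← this]
        exact key (fun f => D1 f = D1 e)
      · intro A hA hAt
        refine tight_sum h2 d hdF (fun e he => ?_) hA hAt
        have := hfc (Sum.inl (Sum.inr ⟨D2 e, mem_image_of_mem D2 he⟩))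
        rw [← this]
        exact key (fun f => D2 f = D2 e)
      · intro j
        have h3 := hfc (Sum.inr j)
        rw [← h3]
        have h4 := key (fun f => col f = j)
        rw [← h4]
        refine (sum_subset ?_ ?_).symm
        · intro e he
          rw [mem_filter] at he ⊢
          exact ⟨(mem_frac.mp he.1).1, he.2⟩
        · intro e he hne
          refine hdF e (fun hF => hne ?_)
          rw [mem_filter] at he ⊢
          exact ⟨hF, he.2⟩
    funext e
    have := congrFun hd e.1
    rw [hdf] at this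
    simpa using this
  have := LinearMap.finrank_le_finrank_of_injective hL
  rw [Module.finrank_fintype_fun_eq_card, Module.finrank_fintype_fun_eq_card] at this
  simpa [T, F, Fintype.card_sum, Fintype.card_coe] using this

end

section
variable {α β : Type*} [DecidableEq α] [DecidableEq β]

/-- Facts on fibres with integral sums. -/
theorem fib_two {F : Finset α} {y : α → ℝ} (hF : ∀ e ∈ F, 0 < y e ∧ y e < 1) {D : α → β}
    (hint : ∀ e ∈ F, ∃ t : ℤ, ∑ f ∈ F.filter (fun f => D f = D e), y f = t) {e : α}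
    (he : e ∈ F) : 2 ≤ (F.filter (fun f => D f = D e)).card ∧
      1 ≤ ∑ f ∈ F.filter (fun f => D f = D e), y f := by
  classical
  obtain ⟨t, ht⟩ := hint e he
  have hmem : e ∈ F.filter (fun f => D f = D e) := mem_filter.mpr ⟨he, rfl⟩
  have hpos : ∀ f ∈ F.filter (fun f => D f = D e), 0 < y f :=
    fun f hf => (hF f (mem_filter.mp hf).1).1
  have hsum : 0 < ∑ f ∈ F.filter (fun f => D f = D e), y f := sum_pos hpos ⟨e, hmem⟩
  have h1 : 1 ≤ ∑ f ∈ F.filter (fun f => D f = D e), y f := by
    rw [ht] at hsum ⊢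
    have : 0 < t := by exact_mod_cast hsum
    exact_mod_cast this
  refine ⟨?_, h1⟩
  by_contra hlt
  have hc : (F.filter (fun f => D f = D e)).card = 1 := by
    have : 0 < (F.filter (fun f => D f = D e)).card := card_pos.mpr ⟨e, hmem⟩
    omega
  obtain ⟨a, ha⟩ := card_eq_one.mp hc
  rw [ha, sum_singleton] at h1
  have haF : a ∈ F := by
    have : a ∈ F.filter (fun f => D f = D e) := by rw [ha]; exact mem_singleton_self a
    exact (mem_filter.mp this).1
  linarith [(hF a haF).2]

/-- Keep one element of every large fibre. -/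
theorem fib_keep (a0 : α) {F : Finset α} {y : α → ℝ} (hF : ∀ e ∈ F, 0 < y e ∧ y e < 1)
    {D : α → β}
    (hint : ∀ e ∈ F, ∃ t : ℤ, ∑ f ∈ F.filter (fun f => D f = D e), y f = t) :
    ∃ kp : α → Prop, (∀ e ∈ F, ∀ f ∈ F, kp e → kp f → D e = D f → e ≠ f →
        (F.filter (fun f => D f = D e)).card < 3) ∧
      ∀ S : Finset α, S ⊆ F → (∀ e ∈ S, ¬ kp e) →
        ∑ e ∈ S, y e + 8 / 3 * ((F.image D).card : ℝ) ≤ 4 / 3 * (F.card : ℝ) := by
  classical
  have hmaps : ∀ e ∈ F, D e ∈ F.image D := fun e he => mem_image_of_mem D he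
  have hch : ∀ P : β, ∃ c : α, P ∈ F.image D →
      (c ∈ F.filter (fun f => D f = P) ∧ ∀ f ∈ F.filter (fun f => D f = P), y f ≤ y c) := by
    intro P
    by_cases hP : P ∈ F.image D
    · obtain ⟨e, he, hDe⟩ := mem_image.mp hP
      obtain ⟨c, hc, hmax⟩ := exists_max_image (F.filter (fun f => D f = P)) y
        ⟨e, mem_filter.mpr ⟨he, hDe⟩⟩
      exact ⟨c, fun _ => ⟨hc, hmax⟩⟩
    · exact ⟨a0, fun h => absurd h hP⟩
  choose ch hch using hch
  refine ⟨fun e => (F.filter (fun f => D f = D e)).card < 3 ∨ ch (D e) = e, ?_, ?_⟩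
  · intro e _ f _ hke hkf hD hne
    rcases hke with h | h
    · exact h
    · rcases hkf with h' | h'
      · rwa [← hD] at h'
      · exact absurd (h.symm.trans (by rw [hD, h'])) hne
  · intro S hSF hS
    have e1 : (F.card : ℝ) = ∑ P ∈ F.image D, ((F.filter (fun f => D f = P)).card : ℝ) := by
      rw [card_eq_sum_card_fiberwise (s := F) (t := F.image D) (f := D) (fun e he => hmaps e he)]
      push_cast
      rfl
    have e2 : ∑ e ∈ S, y e = ∑ P ∈ F.image D, ∑ e ∈ S.filter (fun f => D f = P), y e :=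
      (sum_fiberwise_of_maps_to (fun e he => hmaps e (hSF he)) _).symm
    have e3 : 8 / 3 * ((F.image D).card : ℝ) = ∑ P ∈ F.image D, (8 / 3 : ℝ) := by
      rw [sum_const, nsmul_eq_mul, mul_comm]
    rw [e1, e2, e3, mul_sum, ← sum_add_distrib]
    refine sum_le_sum (fun P hP => ?_)
    obtain ⟨hc1, hc2⟩ := hch P hP
    obtain ⟨hcF, hcD⟩ := mem_filter.mp hc1
    have h2 := (fib_two hF hint hcF).1
    rw [hcD] at h2
    by_cases h3 : 3 ≤ (F.filter (fun f => D f = P)).card
    · have hsub : S.filter (fun f => D f = P) ⊆ (F.filter (fun f => D f = P)).erase (ch P) := by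
        intro f hf
        obtain ⟨hfS, hfD⟩ := mem_filter.mp hf
        refine mem_erase.mpr ⟨?_, mem_filter.mpr ⟨hSF hfS, hfD⟩⟩
        intro heq
        exact hS f hfS (Or.inr (by rw [hfD, heq]))
      have h4 : ∑ f ∈ S.filter (fun f => D f = P), y f ≤
          ∑ f ∈ F.filter (fun f => D f = P), y f - y (ch P) := by
        have h5 : ∑ f ∈ S.filter (fun f => D f = P), y f ≤
            ∑ f ∈ (F.filter (fun f => D f = P)).erase (ch P), y f := by
          refine sum_le_sum_of_subset_of_nonneg hsub (fun f hf _ => ?_)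
          exact (hF f (mem_filter.mp (mem_of_mem_erase hf)).1).1.le
        have h6 := add_sum_erase (F.filter (fun f => D f = P)) y hc1
        linarith
      have h5 : ∑ f ∈ F.filter (fun f => D f = P), y f <
          ∑ f ∈ F.filter (fun f => D f = P), (1 : ℝ) := by
        refine sum_lt_sum_of_nonempty ⟨ch P, hc1⟩ (fun f hf => ?_)
        exact (hF f (mem_filter.mp hf).1).2
      rw [sum_const, nsmul_eq_mul, mul_one] at h5
      obtain ⟨t, ht⟩ := hint (ch P) hcF
      rw [hcD] at ht
      have h6 : ∑ f ∈ F.filter (fun f => D f = P), y f ≤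
          ((F.filter (fun f => D f = P)).card : ℝ) - 1 := by
        rw [ht] at h5 ⊢
        have h7 : t < ((F.filter (fun f => D f = P)).card : ℤ) := by exact_mod_cast h5
        have h8 : t ≤ ((F.filter (fun f => D f = P)).card : ℤ) - 1 := by omega
        exact_mod_cast h8
      have h7 : ∑ f ∈ F.filter (fun f => D f = P), y f ≤
          ((F.filter (fun f => D f = P)).card : ℝ) * y (ch P) := by
        have := sum_le_sum (fun f hf => hc2 f hf)
        rwa [sum_const, nsmul_eq_mul] at this
      have h9 : (3 : ℝ) ≤ ((F.filter (fun f => D f = P)).card : ℝ) := by exact_mod_cast h3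
      set q : ℝ := ((F.filter (fun f => D f = P)).card : ℝ) with hq
      set T : ℝ := ∑ f ∈ F.filter (fun f => D f = P), y f with hT
      have h10 : q * (T - y (ch P)) ≤ (q - 1) * (q - 1) := by nlinarith
      have h11 : T - y (ch P) + 8 / 3 ≤ 4 / 3 * q := by
        by_contra hcon
        have h12 : 4 / 3 * q - 8 / 3 < T - y (ch P) := by linarith [not_le.mp hcon]
        have h13 : q * (4 / 3 * q - 8 / 3) < q * (T - y (ch P)) :=
          mul_lt_mul_of_pos_left h12 (by linarith)
        nlinarith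
      linarith
    · have h4 : S.filter (fun f => D f = P) = ∅ := by
        rw [filter_eq_empty_iff]
        intro f hf hfe
        exact hS f hf (Or.inl (by rw [hfe]; exact not_le.mp h3))
      rw [h4, sum_empty]
      have h9 : (2 : ℝ) ≤ ((F.filter (fun f => D f = P)).card : ℝ) := by exact_mod_cast h2
      linarith

/-- Partners in fibres of size two. -/
theorem fib_pair {F : Finset α} {y : α → ℝ} (hF : ∀ e ∈ F, 0 < y e ∧ y e < 1) {D : α → β}
    (hint : ∀ e ∈ F, ∃ t : ℤ, ∑ f ∈ F.filter (fun f => D f = D e), y f = t) {e f : α}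
    (he : e ∈ F) (hf : f ∈ F) (hne : e ≠ f) (hD : D e = D f)
    (hc : (F.filter (fun f => D f = D e)).card < 3) :
    y e + y f = 1 ∧ ∀ g ∈ F, D e = D g → g = e ∨ g = f := by
  classical
  have hsub : ({e, f} : Finset α) ⊆ F.filter (fun f => D f = D e) := by
    intro g hg
    rw [mem_insert, mem_singleton] at hg
    rcases hg with rfl | rfl
    · exact mem_filter.mpr ⟨he, rfl⟩
    · exact mem_filter.mpr ⟨hf, hD.symm⟩
  have heq : ({e, f} : Finset α) = F.filter (fun f => D f = D e) := by
    refine eq_of_subset_of_card_le hsub ?_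
    rw [card_pair hne]
    omega
  constructor
  · obtain ⟨t, ht⟩ := hint e he
    have h1 := (fib_two hF hint he).2
    rw [← heq, sum_pair hne] at ht h1
    have h3 : (t : ℝ) < 2 := by
      rw [← ht]
      linarith [(hF e he).2, (hF f hf).2]
    have h4 : (1 : ℝ) ≤ t := by rw [← ht]; exact h1
    have h5 : t = 1 := by
      have a : t < 2 := by exact_mod_cast h3
      have b : 1 ≤ t := by exact_mod_cast h4
      omega
    rw [ht, h5]
    simp
  · intro g hg hDg
    have : g ∈ ({e, f} : Finset α) := by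
      rw [heq]
      exact mem_filter.mpr ⟨hg, hDg.symm⟩
    rwa [mem_insert, mem_singleton] at this

end

end Pool.Agent.H31F
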