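import Mathlib

/-!
# Few distinct sets, part 1: extreme points
-/

set_option autoImplicit false

namespace Pool.Agent.H31F

/-- Ratio test. -/
theorem ratio {C : Type*} [Fintype C] (s k : C → ℝ) (hs : ∀ c, 0 ≤ s c)
    (hk : ∀ c, s c = 0 → k c = 0) (hex : ∃ c, k c < 0) :
    ∃ t : ℝ, (∀ c, 0 ≤ s c + t * k c) ∧ ∃ c, s c ≠ 0 ∧ s c + t * k c = 0 := by
  classical
  obtain ⟨c0, hc0⟩ := hex
  have hN : (Finset.univ.filter (fun c => k c < 0)).Nonempty := ⟨c0, by simp [hc0]⟩
  obtain ⟨c1, hc1, hmin⟩ := Finset.exists_min_image _ (fun c => s c / (- k c)) hN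
  have hk1 : k c1 < 0 := by simpa using hc1
  have hs1 : 0 < s c1 := by
    refine lt_of_le_of_ne (hs c1) (fun h => ?_)
    have := hk c1 h.symm
    linarith
  have hpos : 0 < s c1 / (- k c1) := div_pos hs1 (by linarith)
  refine ⟨s c1 / (- k c1), ?_, c1, ne_of_gt hs1, ?_⟩
  · intro c
    by_cases hc : k c < 0
    · have h1 := hmin c (by simp [hc])
      have h2 : s c1 / (- k c1) * (- k c) ≤ s c / (- k c) * (- k c) :=
        mul_le_mul_of_nonneg_right h1 (by linarith)
      have h3 : s c / (- k c) * (- k c) = s c := div_mul_cancel₀ (s c) (by linarith)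
      rw [h3] at h2
      linarith
    · have hc' : 0 ≤ k c := not_lt.mp hc
      have := mul_nonneg hpos.le hc'
      linarith [hs c]
  · have hne : k c1 ≠ 0 := ne_of_lt hk1
    field_simp
    ring

/-- Existence of a point without admissible directions. -/
theorem extreme {C V : Type*} [Fintype C] [AddCommGroup V] [Module ℝ V]
    (s : C → V → ℝ) (k : C → V → ℝ) (W : V → Prop) (Q : V → Prop)
    (hsk : ∀ c x d t, s c (x + t • d) = s c x + t * k c d)
    (hkn : ∀ c d, k c (-d) = - k c d)
    (hWn : ∀ d, W d → W (-d))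
    (hQ : ∀ x d (t : ℝ), Q x → W d → Q (x + t • d))
    (hW0 : ∀ d, W d → d ≠ 0 → ∃ c, k c d ≠ 0)
    (x : V) (hx : Q x) (hxs : ∀ c, 0 ≤ s c x) :
    ∃ x', Q x' ∧ (∀ c, 0 ≤ s c x') ∧ ∀ d, W d → (∀ c, s c x' = 0 → k c d = 0) → d = 0 := by
  classical
  obtain ⟨m, hm⟩ : ∃ m, Fintype.card C - (Finset.univ.filter (fun c => s c x = 0)).card = m :=
    ⟨_, rfl⟩
  induction m using Nat.strong_induction_on generalizing x with
  | _ m ih =>
    by_cases hgood : ∀ d, W d → (∀ c, s c x = 0 → k c d = 0) → d = 0
    · exact ⟨x, hx, hxs, hgood⟩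
    · push Not at hgood
      obtain ⟨d, hWd, hd, hd0⟩ := hgood
      obtain ⟨d', hWd', hd', hneg⟩ : ∃ d', W d' ∧ (∀ c, s c x = 0 → k c d' = 0) ∧
          ∃ c, k c d' < 0 := by
        obtain ⟨c, hc⟩ := hW0 d hWd hd0
        rcases lt_or_gt_of_ne hc with h | h
        · exact ⟨d, hWd, hd, c, h⟩
        · refine ⟨-d, hWn d hWd, fun c' hc' => ?_, c, ?_⟩
          · rw [hkn, hd c' hc', neg_zero]
          · rw [hkn]
            linarith
      obtain ⟨t, ht, c1, hc1, hc1'⟩ := ratio (fun c => s c x) (fun c => k c d') hxs hd' hneg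
      have hsub : (Finset.univ.filter (fun c => s c x = 0)) ⊂
          (Finset.univ.filter (fun c => s c (x + t • d') = 0)) := by
        rw [Finset.ssubset_iff_of_subset]
        · refine ⟨c1, ?_, ?_⟩
          · simp only [Finset.mem_filter, Finset.mem_univ, true_and]
            rw [hsk]
            exact hc1'
          · simp only [Finset.mem_filter, Finset.mem_univ, true_and]
            exact hc1
        · intro c hc
          simp only [Finset.mem_filter, Finset.mem_univ, true_and] at hc ⊢
          rw [hsk, hc, hd' c hc]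
          ring
      have hlt := Finset.card_lt_card hsub
      have hle : (Finset.univ.filter (fun c => s c (x + t • d') = 0)).card ≤ Fintype.card C :=
        Finset.card_le_univ _
      refine ih _ ?_ (x + t • d') (hQ x d' t hx hWd') (fun c => ?_) rfl
      · omega
      · rw [hsk]
        exact ht c

/-- At most `card κ` fractional coordinates. -/
theorem vertex {ι κ : Type*} [Fintype ι] [Fintype κ] (w : ι → κ → ℝ) (lam : ι → ℝ)
    (h0 : ∀ p, 0 ≤ lam p) (h1 : ∀ p, lam p ≤ 1) :
    ∃ mu : ι → ℝ, (∀ p, 0 ≤ mu p) ∧ (∀ p, mu p ≤ 1) ∧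
      (∀ i, ∑ p, mu p * w p i = ∑ p, lam p * w p i) ∧
      Fintype.card {p // 0 < mu p ∧ mu p < 1} ≤ Fintype.card κ := by
  classical
  obtain ⟨mu, hQ, hmu, hext⟩ := extreme (C := ι ⊕ ι) (V := ι → ℝ)
    (fun c x => Sum.elim (fun p => x p) (fun p => 1 - x p) c)
    (fun c d => Sum.elim (fun p => d p) (fun p => - d p) c)
    (fun d => ∀ i, ∑ p, d p * w p i = 0)
    (fun x => ∀ i, ∑ p, x p * w p i = ∑ p, lam p * w p i)
    (by
      rintro (p | p) x d t
      · simp
      · simp only [Sum.elim_inr, Pi.add_apply, Pi.smul_apply, smul_eq_mul]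
        ring)
    (by
      rintro (p | p) d
      · simp
      · simp)
    (by
      intro d hd i
      have : ∑ p, (-d) p * w p i = - ∑ p, d p * w p i := by
        rw [← Finset.sum_neg_distrib]
        refine Finset.sum_congr rfl (fun p _ => ?_)
        simp
      rw [this, hd i, neg_zero])
    (by
      intro x d t hx hd i
      have : ∑ p, (x + t • d) p * w p i = ∑ p, x p * w p i + t * ∑ p, d p * w p i := by
        rw [Finset.mul_sum, ← Finset.sum_add_distrib]
        refine Finset.sum_congr rfl (fun p _ => ?_)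
        simp only [Pi.add_apply, Pi.smul_apply, smul_eq_mul]
        ring
      rw [this, hx i, hd i]
      ring)
    (by
      intro d _ hd
      by_contra hcon
      push Not at hcon
      apply hd
      funext p
      have := hcon (Sum.inl p)
      simpa using this)
    lam (fun _ => rfl)
    (by
      rintro (p | p)
      · simpa using h0 p
      · simpa using h1 p)
  have hm0 : ∀ p, 0 ≤ mu p := fun p => by simpa using hmu (Sum.inl p)
  have hm1 : ∀ p, mu p ≤ 1 := fun p => by
    have := hmu (Sum.inr p)
    simpa using this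
  refine ⟨mu, hm0, hm1, hQ, ?_⟩
  let L : ({p // 0 < mu p ∧ mu p < 1} → ℝ) →ₗ[ℝ] (κ → ℝ) :=
    { toFun := fun f i => ∑ p, f p * w p.1 i
      map_add' := by
        intro f g
        funext i
        simp only [Pi.add_apply, add_mul, Finset.sum_add_distrib]
      map_smul' := by
        intro c f
        funext i
        simp only [Pi.smul_apply, smul_eq_mul, RingHom.id_apply, Finset.mul_sum, mul_assoc] }
  have hL : Function.Injective L := by
    rw [injective_iff_map_eq_zero]
    intro f hf
    have hfi : ∀ i, ∑ p, f p * w p.1 i = 0 := fun i => congrFun hf i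
    let d : ι → ℝ := fun p => if h : 0 < mu p ∧ mu p < 1 then f ⟨p, h⟩ else 0
    have hd : d = 0 := by
      refine hext d ?_ ?_
      · intro i
        rw [← hfi i]
        have h2 : ∑ p ∈ Finset.univ.filter (fun p => 0 < mu p ∧ mu p < 1), d p * w p i =
            ∑ p, d p * w p i := by
          refine Finset.sum_filter_of_ne (fun p _ hp => ?_)
          by_contra hcon
          apply hp
          simp [d, hcon]
        rw [← h2]
        rw [Finset.sum_subtype (p := fun p => 0 < mu p ∧ mu p < 1)
          (Finset.univ.filter (fun p => 0 < mu p ∧ mu p < 1)) (fun p => by simp)]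
        refine Finset.sum_congr rfl (fun p _ => ?_)
        simp [d, p.2]
      · rintro (p | p) hp
        · have hp' : mu p = 0 := by simpa using hp
          simp [d, hp']
        · have hp' : mu p = 1 := by
            have : 1 - mu p = 0 := by simpa using hp
            linarith
          simp [d, hp']
    funext p
    have := congrFun hd p.1
    simpa [d, p.2] using this
  have := LinearMap.finrank_le_finrank_of_injective hL
  rwa [Module.finrank_fintype_fun_eq_card, Module.finrank_fintype_fun_eq_card] at this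

end Pool.Agent.H31F
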