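import Pool.Agent.Helper31_FEW.Path

/-!
# Few distinct sets, part 8: one linear order for all pieces
-/

set_option autoImplicit false

namespace Pool.Agent.H31F

open Finset

/-- The pieces in one linear order; `st k` is the first position of the piece of `k`. -/
structure Flat {α : Type*} (A B : α → α → Prop) (G : Finset α) (M : ℕ) (g : ℕ → α)
    (st : ℕ → ℕ) (c2 : α → Prop) : Prop where
  mem : ∀ i, i < M → g i ∈ G
  inj : ∀ i j, i < M → j < M → g i = g j → i = j
  sur : ∀ x ∈ G, ∃ i, i < M ∧ g i = x
  loc : ∀ i j, i < j → j < M → Adj A B (g i) (g j) → j = i + 1 ∨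
    ∀ k, i < k → k ≤ j → st k = i
  unq : ∀ i j j', i + 1 < j → i + 1 < j' → j < M → j' < M → Adj A B (g i) (g j) →
    Adj A B (g i) (g j') → j = j'
  two : ∀ x ∈ G, ∀ z ∈ G, Adj A B x z → (c2 x ↔ ¬ c2 z)

theorem flat_aux {α : Type*} (a0 : α) {A B : α → α → Prop} {G : Finset α} {ι : Type}
    {m : ι → ℕ} {h : ι → ℕ → α} {cl : ι → Prop} (hD : Dec A B G ι m h cl) (s : Finset ι) :
    ∃ (M : ℕ) (g : ℕ → α) (st : ℕ → ℕ),
      (∀ i, i < M → ∃ p ∈ s, ∃ a, a < m p ∧ g i = h p a) ∧
      (∀ i j, i < M → j < M → g i = g j → i = j) ∧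
      (∀ p ∈ s, ∀ a, a < m p → ∃ i, i < M ∧ g i = h p a) ∧
      (∀ i j, i < j → j < M → Adj A B (g i) (g j) → j = i + 1 ∨
        ∀ k, i < k → k ≤ j → st k = i) ∧
      (∀ i j j', i + 1 < j → i + 1 < j' → j < M → j' < M → Adj A B (g i) (g j) →
        Adj A B (g i) (g j') → j = j') := by
  classical
  induction s using Finset.induction_on with
  | empty =>
    refine ⟨0, fun _ => a0, fun _ => 0, ?_, ?_, ?_, ?_, ?_⟩
    · intro i hi
      omega
    · intro i j hi
      omega
    · intro p hp
      simp at hp
    · intro i j _ hj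
      omega
    · intro i j j' _ _ hj
      omega
  | insert p0 s hp0 ih =>
    obtain ⟨M, g, st, h1, h2, h3, h4, h5⟩ := ih
    refine ⟨m p0 + M, fun i => if i < m p0 then h p0 i else g (i - m p0),
      fun i => if i < m p0 then 0 else m p0 + st (i - m p0), ?_, ?_, ?_, ?_, ?_⟩
    · intro i hi
      dsimp only
      by_cases hi0 : i < m p0
      · exact ⟨p0, mem_insert_self _ _, i, hi0, if_pos hi0⟩
      · obtain ⟨p, hp, a, ha, hga⟩ := h1 (i - m p0) (by omega)
        exact ⟨p, mem_insert_of_mem hp, a, ha, by rw [if_neg hi0, hga]⟩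
    · intro i j hi hj hij
      dsimp only at hij
      by_cases hi0 : i < m p0
      · by_cases hj0 : j < m p0
        · rw [if_pos hi0, if_pos hj0] at hij
          exact (hD.inj p0 p0 i j hi0 hj0 hij).2
        · rw [if_pos hi0, if_neg hj0] at hij
          obtain ⟨p, hp, a, ha, hga⟩ := h1 (j - m p0) (by omega)
          rw [hga] at hij
          have := (hD.inj p0 p i a hi0 ha hij).1
          rw [this] at hp0
          exact absurd hp hp0
      · by_cases hj0 : j < m p0
        · rw [if_neg hi0, if_pos hj0] at hij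
          obtain ⟨p, hp, a, ha, hga⟩ := h1 (i - m p0) (by omega)
          rw [hga] at hij
          have := (hD.inj p p0 a j ha hj0 hij).1
          rw [← this] at hp0
          exact absurd hp hp0
        · rw [if_neg hi0, if_neg hj0] at hij
          have := h2 (i - m p0) (j - m p0) (by omega) (by omega) hij
          omega
    · intro p hp a ha
      rcases mem_insert.mp hp with rfl | hp
      · exact ⟨a, by omega, if_pos ha⟩
      · obtain ⟨i, hi, hgi⟩ := h3 p hp a ha
        refine ⟨m p0 + i, by omega, ?_⟩
        dsimp only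
        rw [if_neg (by omega), Nat.add_sub_cancel_left, hgi]
    · intro i j hij hj hadj
      dsimp only at hadj ⊢
      by_cases hi0 : i < m p0
      · by_cases hj0 : j < m p0
        · rw [if_pos hi0, if_pos hj0] at hadj
          obtain ⟨_, hc⟩ := hD.loc p0 p0 i j hi0 hj0 hadj
          rcases hc with hc | hc | ⟨_, ⟨hc, _⟩ | ⟨hc, _⟩⟩
          · exact Or.inl hc
          · omega
          · right
            intro k _ hk
            rw [if_pos (by omega), hc]
          · omega
        · rw [if_pos hi0, if_neg hj0] at hadj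
          obtain ⟨p, hp, a, ha, hga⟩ := h1 (j - m p0) (by omega)
          rw [hga] at hadj
          have := (hD.loc p0 p i a hi0 ha hadj).1
          rw [this] at hp0
          exact absurd hp hp0
      · rw [if_neg hi0, if_neg (by omega)] at hadj
        rcases h4 (i - m p0) (j - m p0) (by omega) (by omega) hadj with hc | hc
        · left
          omega
        · right
          intro k hk hk'
          rw [if_neg (by omega), hc (k - m p0) (by omega) (by omega)]
          omega
    · intro i j j' hij hij' hj hj' hadj hadj'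
      dsimp only at hadj hadj'
      by_cases hi0 : i < m p0
      · have key : ∀ l, i + 1 < l → l < m p0 + M →
            Adj A B (if i < m p0 then h p0 i else g (i - m p0))
              (if l < m p0 then h p0 l else g (l - m p0)) → l = m p0 - 1 := by
          intro l hil hl hal
          by_cases hl0 : l < m p0
          · rw [if_pos hi0, if_pos hl0] at hal
            obtain ⟨_, hc⟩ := hD.loc p0 p0 i l hi0 hl0 hal
            rcases hc with hc | hc | ⟨_, ⟨_, hc⟩ | ⟨hc, _⟩⟩
            · omega
            · omega
            · exact hc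
            · omega
          · rw [if_pos hi0, if_neg hl0] at hal
            obtain ⟨p, hp, a, ha, hga⟩ := h1 (l - m p0) (by omega)
            rw [hga] at hal
            have := (hD.loc p0 p i a hi0 ha hal).1
            rw [this] at hp0
            exact absurd hp hp0
        rw [key j hij hj hadj, key j' hij' hj' hadj']
      · rw [if_neg hi0, if_neg (by omega)] at hadj hadj'
        have := h5 (i - m p0) (j - m p0) (j' - m p0) (by omega) (by omega) (by omega) (by omega)
          hadj hadj'
        omega

theorem flatten {α : Type*} (a0 : α) {A B : α → α → Prop} {G : Finset α} {ι : Type} [Fintype ι]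
    {m : ι → ℕ} {h : ι → ℕ → α} {cl : ι → Prop} (hD : Dec A B G ι m h cl) :
    ∃ (M : ℕ) (g : ℕ → α) (st : ℕ → ℕ) (c2 : α → Prop), Flat A B G M g st c2 := by
  obtain ⟨M, g, st, h1, h2, h3, h4, h5⟩ := flat_aux a0 hD univ
  refine ⟨M, g, st, fun x => ∃ p i, i < m p ∧ h p i = x ∧ Even i, ?_, h2, ?_, h4, h5, ?_⟩
  · intro i hi
    obtain ⟨p, _, a, ha, hga⟩ := h1 i hi
    rw [hga]
    exact hD.mem p a ha
  · intro x hx
    obtain ⟨p, a, ha, rfl⟩ := hD.sur x hx
    exact h3 p (mem_univ _) a ha
  · intro x hx z hz hadj
    obtain ⟨p, i, hi, rfl⟩ := hD.sur x hx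
    obtain ⟨q, j, hj, rfl⟩ := hD.sur z hz
    have key : ∀ p' i', i' < m p' → ((∃ p i, i < m p ∧ h p i = h p' i' ∧ Even i) ↔ Even i') := by
      intro p' i' hi'
      constructor
      · rintro ⟨p2, i2, hi2, he, hev⟩
        have := (hD.inj p2 p' i2 i' hi2 hi' he).2
        rwa [← this]
      · intro hev
        exact ⟨p', i', hi', rfl, hev⟩
    rw [key p i hi, key q j hj]
    obtain ⟨rfl, hc⟩ := hD.loc p q i j hi hj hadj
    rcases hc with rfl | rfl | ⟨hcl, ⟨rfl, rfl⟩ | ⟨rfl, rfl⟩⟩
    · rw [Nat.even_add_one, not_not]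
    · rw [Nat.even_add_one]
    · have hev := hD.evn p hcl
      constructor
      · intro _ h2
        obtain ⟨a, ha⟩ := hev
        obtain ⟨b, hb⟩ := h2
        omega
      · intro _
        exact Even.zero
    · have hev := hD.evn p hcl
      constructor
      · intro h2
        obtain ⟨a, ha⟩ := hev
        obtain ⟨b, hb⟩ := h2
        omega
      · intro h2
        exact absurd Even.zero h2

end Pool.Agent.H31F
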