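import Pool.Agent.Helper31_FEW.Core

/-!
# Few distinct sets, part 11: the main theorem
-/

set_option autoImplicit false

namespace Pool.Agent.H31F

open Finset

section
variable {α : Type*} [DecidableEq α]

/-- Rank of a finite set. -/
noncomputable def rk (M : Matroid α) (A : Finset α) : ℕ := (M.eRk (A : Set α)).toNat

omit [DecidableEq α] in
theorem rk_cast (M : Matroid α) (A : Finset α) : ((rk M A : ℕ) : ℕ∞) = M.eRk (A : Set α) := by
  unfold rk
  refine ENat.coe_toNat (fun htop => ?_)
  have h1 := M.eRk_le_encard (A : Set α)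
  rw [htop, Set.encard_coe_eq_coe_finsetCard] at h1
  exact absurd (top_le_iff.mp h1) (ENat.coe_ne_top _)

omit [DecidableEq α] in
theorem rk_card (M : Matroid α) (A : Finset α) : rk M A ≤ A.card := by
  have h1 := M.eRk_le_encard (A : Set α)
  rw [← rk_cast, Set.encard_coe_eq_coe_finsetCard] at h1
  exact_mod_cast h1

omit [DecidableEq α] in
theorem rk_mono (M : Matroid α) {A B : Finset α} (h : A ⊆ B) : rk M A ≤ rk M B := by
  have h1 : M.eRk (A : Set α) ≤ M.eRk (B : Set α) := M.eRk_mono (by exact_mod_cast h)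
  rw [← rk_cast, ← rk_cast] at h1
  exact_mod_cast h1

theorem rk_sub (M : Matroid α) (A B : Finset α) : rk M (A ∪ B) + rk M (A ∩ B) ≤
    rk M A + rk M B := by
  have h1 := M.eRk_inter_add_eRk_union_le (A : Set α) (B : Set α)
  rw [← coe_inter, ← coe_union, ← rk_cast, ← rk_cast, ← rk_cast, ← rk_cast] at h1
  have h2 : rk M (A ∩ B) + rk M (A ∪ B) ≤ rk M A + rk M B := by exact_mod_cast h1
  omega

omit [DecidableEq α] in
theorem rk_indep (M : Matroid α) {A : Finset α} (h : M.Indep (A : Set α)) :
    rk M A = A.card := by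
  have h1 := h.eRk_eq_encard
  rw [← rk_cast, Set.encard_coe_eq_coe_finsetCard] at h1
  exact_mod_cast h1

omit [DecidableEq α] in
theorem indep_of_rk (M : Matroid α) {A : Finset α} (h : rk M A = A.card) :
    M.Indep (A : Set α) := by
  rw [Matroid.indep_iff_eRk_eq_encard_of_finite A.finite_toSet, ← rk_cast, h,
    Set.encard_coe_eq_coe_finsetCard]

/-- The rank of the second coordinates. -/
noncomputable def rk2 {κ : Type*} (M : Matroid α) (A : Finset (κ × α)) : ℕ :=
  rk M (A.image Prod.snd)

theorem rk2_Rk {κ : Type*} [DecidableEq κ] (M : Matroid α) : Rk (rk2 (κ := κ) M) := by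
  refine ⟨?_, ?_, ?_, ?_⟩
  · unfold rk2
    rw [image_empty]
    exact Nat.le_zero.mp (rk_card M ∅)
  · intro A B h
    exact rk_mono M (image_subset_image h)
  · intro A
    exact (rk_card M _).trans card_image_le
  · intro A B
    unfold rk2
    have h1 := rk_sub M (A.image Prod.snd) (B.image Prod.snd)
    have h2 : rk M ((A ∩ B).image Prod.snd) ≤ rk M (A.image Prod.snd ∩ B.image Prod.snd) :=
      rk_mono M (image_inter_subset _ _ _)
    rw [image_union]
    omega

end

section
variable {α κ : Type*} [DecidableEq α] [DecidableEq κ] [Fintype κ]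

/-- The copies. -/
noncomputable def EE (T : κ → Finset α) : Finset (κ × α) :=
  univ.biUnion (fun k : κ => (T k).image (fun x => (k, x)))

theorem mem_EE {T : κ → Finset α} {p : κ × α} : p ∈ EE T ↔ p.2 ∈ T p.1 := by
  unfold EE
  rw [mem_biUnion]
  constructor
  · rintro ⟨k, _, hT⟩
    obtain ⟨x, hx, rfl⟩ := mem_image.mp hT
    exact hx
  · intro h
    exact ⟨p.1, mem_univ _, mem_image.mpr ⟨p.2, h, rfl⟩⟩

omit [DecidableEq α] in
theorem sum_col (A : Finset (κ × α)) (w : κ → ℝ) :
    ∑ p ∈ A, w p.1 = ∑ k, w k * ((A.filter (fun p => p.1 = k)).card : ℝ) := by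
  rw [← sum_fiberwise_of_maps_to (s := A) (t := univ) (g := fun p => p.1)
    (fun _ _ => mem_univ _)]
  refine sum_congr rfl (fun k _ => ?_)
  rw [card_eq_sum_ones]
  push_cast
  rw [mul_sum]
  refine sum_congr rfl (fun p hp => ?_)
  rw [(mem_filter.mp hp).2, mul_one]

theorem fea_of {T : κ → Finset α} (M : Matroid α) {n : ℕ} (hn : 0 < n)
    (hK : ∀ k, M.Indep ((T k : Finset α) : Set α)) (b : κ → ℕ)
    (hb : ∑ k, b k ≤ n) : Fea (EE T) (rk2 M) (fun p => (b p.1 : ℝ) / n) := by
  classical
  have hn' : (0 : ℝ) < n := by exact_mod_cast hn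
  refine ⟨fun p _ => by positivity, ?_⟩
  intro A hA
  rw [sum_col A (fun k => (b k : ℝ) / n)]
  have h1 : ∀ k : κ, (A.filter (fun p => p.1 = k)).card ≤ rk2 M A := by
    intro k
    have e1 : (A.filter (fun p => p.1 = k)).card =
        ((A.filter (fun p => p.1 = k)).image Prod.snd).card := by
      rw [card_image_of_injOn]
      intro p hp q hq hpq
      have hp' := (mem_filter.mp (mem_coe.mp hp)).2
      have hq' := (mem_filter.mp (mem_coe.mp hq)).2
      exact Prod.ext (hp'.trans hq'.symm) hpq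
    have hsub : (A.filter (fun p => p.1 = k)).image Prod.snd ⊆ T k := by
      intro x hx
      obtain ⟨p, hp, rfl⟩ := mem_image.mp hx
      have hp' := mem_filter.mp hp
      have := mem_EE.mp (hA hp'.1)
      rwa [hp'.2] at this
    have hind : M.Indep ((((A.filter (fun p => p.1 = k)).image Prod.snd : Finset α)) : Set α) :=
      (hK k).subset (by exact_mod_cast hsub)
    rw [e1, ← rk_indep M hind]
    exact rk_mono M (image_subset_image (filter_subset _ _))
  calc ∑ k : κ, (b k : ℝ) / n * ((A.filter (fun p => p.1 = k)).card : ℝ)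
      ≤ ∑ k : κ, (b k : ℝ) / n * (rk2 M A : ℝ) := by
        refine sum_le_sum (fun k _ => ?_)
        refine mul_le_mul_of_nonneg_left ?_ (by positivity)
        exact_mod_cast h1 k
    _ = ((∑ k, b k : ℕ) : ℝ) / n * (rk2 M A : ℝ) := by
        rw [← sum_mul, ← sum_div]
        push_cast
        ring
    _ ≤ 1 * (rk2 M A : ℝ) := by
        refine mul_le_mul_of_nonneg_right ?_ (by positivity)
        rw [div_le_one hn']
        exact_mod_cast hb
    _ = (rk2 M A : ℝ) := one_mul _

theorem EE_col (T : κ → Finset α) (w : κ → ℝ) (k : κ) :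
    ∑ p ∈ (EE T).filter (fun p => p.1 = k), w p.1 = w k * ((T k).card : ℝ) := by
  classical
  have e1 : (EE T).filter (fun p => p.1 = k) = (T k).image (fun x => (k, x)) := by
    ext p
    rw [mem_filter, mem_EE, mem_image]
    constructor
    · rintro ⟨h1, rfl⟩
      exact ⟨p.2, h1, rfl⟩
    · rintro ⟨x, hx, rfl⟩
      exact ⟨hx, rfl⟩
  have e2 : ((EE T).filter (fun p => p.1 = k)).card = (T k).card := by
    rw [e1, card_image_of_injective _ (fun x z h => (Prod.mk.inj h).2)]
  have e3 : ∑ p ∈ (EE T).filter (fun p => p.1 = k), w p.1 =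
      ∑ p ∈ (EE T).filter (fun p => p.1 = k), w k := by
    refine sum_congr rfl (fun p hp => ?_)
    rw [(mem_filter.mp hp).2]
  rw [e3, sum_const, e2, nsmul_eq_mul, mul_comm]

/-- The theorem for the copies. -/
theorem big {T : κ → Finset α} (M N : Matroid α) {n : ℕ} (hn : 0 < n)
    (hM : ∀ k, M.Indep ((T k : Finset α) : Set α))
    (hN : ∀ k, N.Indep ((T k : Finset α) : Set α)) (hc : ∀ k, (T k).card ≤ n)
    (b : κ → ℕ) (hb : ∑ k, b k ≤ n) (L : ℕ)
    (hL : (L : ℝ) ≤ ∑ k, (b k : ℝ) * (T k).card / n) :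
    ∃ Z : Finset (κ × α), (∀ p ∈ Z, p.2 ∈ T p.1) ∧
      Set.InjOn Prod.snd (Z : Set (κ × α)) ∧
      M.Indep ((Z.image Prod.snd : Finset α) : Set α) ∧
      N.Indep ((Z.image Prod.snd : Finset α) : Set α) ∧
      (∀ k, (Z.filter (fun p => p.1 = k)).card ≤ b k) ∧
      6 * L ≤ 6 * Z.card + 31 * Fintype.card κ := by
  classical
  have hn' : (0 : ℝ) < n := by exact_mod_cast hn
  set Y : ℝ := ∑ k, (b k : ℝ) * (T k).card / n with hY
  have hY0 : 0 ≤ Y := by positivity
  obtain ⟨θ, hθ0, hθ1, hθ⟩ : ∃ θ : ℝ, 0 ≤ θ ∧ θ ≤ 1 ∧ θ * Y = L := by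
    rcases eq_or_lt_of_le hY0 with h | h
    · refine ⟨0, le_refl _, zero_le_one, ?_⟩
      have h1 : (L : ℝ) ≤ 0 := by rw [h]; exact hL
      have h2 : (0 : ℝ) ≤ L := Nat.cast_nonneg _
      rw [zero_mul]
      linarith
    · refine ⟨L / Y, by positivity, (div_le_one h).mpr hL, ?_⟩
      field_simp
  have fea : ∀ (M : Matroid α), (∀ k, M.Indep ((T k : Finset α) : Set α)) →
      Fea (EE T) (rk2 M) (fun p => θ * ((b p.1 : ℝ) / n)) := by
    intro M hM
    have h1 := fea_of M hn hM b hb
    refine ⟨fun p _ => by positivity, fun A hA => ?_⟩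
    rw [← mul_sum]
    have h2 := h1.le A hA
    have h3 : 0 ≤ ∑ e ∈ A, (b e.1 : ℝ) / n := by positivity
    calc θ * ∑ e ∈ A, (b e.1 : ℝ) / n ≤ 1 * ∑ e ∈ A, (b e.1 : ℝ) / n :=
          mul_le_mul_of_nonneg_right hθ1 h3
      _ ≤ _ := by linarith
  have hcol : ∀ k, ∑ p ∈ (EE T).filter (fun p => p.1 = k), θ * ((b p.1 : ℝ) / n) =
      θ * ((b k : ℝ) * (T k).card / n) := by
    intro k
    rw [EE_col T (fun k => θ * ((b k : ℝ) / n)) k]
    ring
  have hsum : ∑ p ∈ EE T, θ * ((b p.1 : ℝ) / n) = (L : ℝ) := by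
    rw [← sum_fiberwise_of_maps_to (s := EE T) (t := univ) (g := fun p => p.1)
      (fun _ _ => mem_univ _), sum_congr rfl (fun k _ => hcol k), ← mul_sum, ← hY, hθ]
  obtain ⟨Z, hZE, hZ1, hZ2, hZc, hZN⟩ := core (κ := κ) (EE T) (fun p => p.1) (rk2 M) (rk2 N)
    (rk2_Rk M) (rk2_Rk N) (fun p => θ * ((b p.1 : ℝ) / n)) (fea M hM) (fea N hN)
    L hsum b (fun k => by
      rw [hcol k]
      have h1 : ((T k).card : ℝ) / n ≤ 1 := by
        rw [div_le_one hn']
        exact_mod_cast hc k
      have h2 : (b k : ℝ) * (T k).card / n ≤ b k := by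
        rw [mul_div_assoc]
        exact mul_le_of_le_one_right (Nat.cast_nonneg _) h1
      have h3 : 0 ≤ (b k : ℝ) * (T k).card / n := by positivity
      calc θ * ((b k : ℝ) * (T k).card / n) ≤ 1 * ((b k : ℝ) * (T k).card / n) :=
            mul_le_mul_of_nonneg_right hθ1 h3
        _ ≤ b k := by linarith)
  have hle : (Z.image Prod.snd).card ≤ Z.card := card_image_le
  have r1 := rk_card M (Z.image Prod.snd)
  have r2 := rk_card N (Z.image Prod.snd)
  have s1 : rk M (Z.image Prod.snd) = Z.card := hZ1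
  have s2 : rk N (Z.image Prod.snd) = Z.card := hZ2
  have heq : (Z.image Prod.snd).card = Z.card := le_antisymm hle (by omega)
  exact ⟨Z, fun p hp => mem_EE.mp (hZE hp), card_image_iff.mp heq,
    indep_of_rk M (by omega), indep_of_rk N (by omega), hZc, hZN⟩

end

/-- Hall assignment inside a cluster. -/
theorem hall {β ι : Type*} [DecidableEq β] [DecidableEq ι] (i0 : ι) (rel : β → ι → Prop)
    [∀ x i, Decidable (rel x i)] (t : ℕ) (X : Finset β) (I : Finset ι) (hXI : X.card ≤ I.card)
    (h1 : ∀ i ∈ I, (X.filter (fun x => ¬ rel x i)).card ≤ t)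
    (h2 : ∀ x ∈ X, t ≤ (I.filter (fun i => rel x i)).card) :
    ∃ f : β → ι, Set.InjOn f (X : Set β) ∧ ∀ x ∈ X, f x ∈ I ∧ rel x (f x) := by
  classical
  have key := (Finset.all_card_le_biUnion_card_iff_exists_injective
    (fun x : {x // x ∈ X} => I.filter (fun i => rel x.1 i))).mp (by
      intro s
      rcases s.eq_empty_or_nonempty with rfl | ⟨x0, hx0⟩
      · simp
      · by_cases hs : s.card ≤ t
        · refine (hs.trans (h2 x0.1 x0.2)).trans (card_le_card ?_)
          intro i hi
          exact mem_biUnion.mpr ⟨x0, hx0, hi⟩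
        · have hall : I ⊆ s.biUnion (fun x : {x // x ∈ X} => I.filter (fun i => rel x.1 i)) := by
            intro i hi
            by_contra hcon
            have h3 : s.image Subtype.val ⊆ X.filter (fun x => ¬ rel x i) := by
              intro x hx
              obtain ⟨x', hx', rfl⟩ := mem_image.mp hx
              refine mem_filter.mpr ⟨x'.2, fun hr => hcon ?_⟩
              exact mem_biUnion.mpr ⟨x', hx', mem_filter.mpr ⟨hi, hr⟩⟩
            have h4 := (card_le_card h3).trans (h1 i hi)
            rw [card_image_of_injective _ Subtype.val_injective] at h4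
            exact hs h4
          have h5 : s.card ≤ X.card := by
            have h6 : s.image Subtype.val ⊆ X := by
              intro x hx
              obtain ⟨x', _, rfl⟩ := mem_image.mp hx
              exact x'.2
            have h7 := card_le_card h6
            rwa [card_image_of_injective _ Subtype.val_injective] at h7
          exact (h5.trans hXI).trans (card_le_card hall))
  obtain ⟨f, hf1, hf2⟩ := key
  refine ⟨fun x => if h : x ∈ X then f ⟨x, h⟩ else i0, ?_, ?_⟩
  · intro x hx z hz hxz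
    dsimp only at hxz
    rw [dif_pos (mem_coe.mp hx), dif_pos (mem_coe.mp hz)] at hxz
    exact congrArg Subtype.val (hf1 hxz)
  · intro x hx
    dsimp only
    rw [dif_pos hx]
    exact mem_filter.mp (hf2 ⟨x, hx⟩)

/-- The number of bad elements. -/
theorem bad_card {β ι : Type*} [DecidableEq β] [DecidableEq ι] (rel : β → ι → Prop)
    [∀ x i, Decidable (rel x i)] (t : ℕ) (X : Finset β) (I : Finset ι) (hI : 2 * t ≤ I.card)
    (h1 : ∀ i ∈ I, (X.filter (fun x => ¬ rel x i)).card ≤ t) :
    (X.filter (fun x => (I.filter (fun i => rel x i)).card < t)).card ≤ 2 * t := by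
  classical
  rcases Nat.eq_zero_or_pos I.card with h0 | hpos
  · have ht : t = 0 := by omega
    subst ht
    simp
  set D := X.filter (fun x => (I.filter (fun i => rel x i)).card < t) with hD
  have e1 : ∑ x ∈ D, (I.filter (fun i => ¬ rel x i)).card =
      ∑ i ∈ I, (D.filter (fun x => ¬ rel x i)).card := by
    simp only [card_filter]
    exact sum_comm
  have e2 : ∑ i ∈ I, (D.filter (fun x => ¬ rel x i)).card ≤ I.card * t := by
    rw [← smul_eq_mul]
    refine sum_le_card_nsmul _ _ _ (fun i hi => ?_)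
    exact (card_le_card (filter_subset_filter _ (filter_subset _ _))).trans (h1 i hi)
  have e3 : D.card * (I.card - t) ≤ ∑ x ∈ D, (I.filter (fun i => ¬ rel x i)).card := by
    rw [← smul_eq_mul]
    refine card_nsmul_le_sum _ _ _ (fun x hx => ?_)
    have h2 := (mem_filter.mp hx).2
    have h3 := card_filter_add_card_filter_not (s := I) (fun i => rel x i)
    omega
  have e4 : D.card * (I.card - t) ≤ I.card * t := by omega
  have e5 : I.card ≤ 2 * (I.card - t) := by omega
  have e6 : D.card * I.card ≤ 2 * t * I.card := by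
    calc D.card * I.card ≤ D.card * (2 * (I.card - t)) := Nat.mul_le_mul_left _ e5
      _ = 2 * (D.card * (I.card - t)) := by ring
      _ ≤ 2 * (I.card * t) := Nat.mul_le_mul_left _ e4
      _ = 2 * t * I.card := by ring
  exact Nat.le_of_mul_le_mul_right e6 hpos

/-- The total mass after the removal of the bad elements. -/
theorem mass {κ : Type*} [Fintype κ] (b u : κ → ℕ) (n t : ℕ) (hn : 0 < n) (hb : ∑ k, b k ≤ n)
    (hu : ∀ k, n ≤ u k + 2 * t) :
    ∃ L : ℕ, (L : ℝ) ≤ ∑ k, (b k : ℝ) * (u k : ℝ) / n ∧ ∑ k, b k ≤ L + 3 * t := by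
  classical
  have hn' : (0 : ℝ) < n := by exact_mod_cast hn
  have h1 : ∑ k, ((b k : ℝ) - (b k : ℝ) * (2 * t) / n) ≤ ∑ k, (b k : ℝ) * (u k : ℝ) / n := by
    refine sum_le_sum (fun k _ => ?_)
    have h2 : (n : ℝ) ≤ (u k : ℝ) + 2 * t := by exact_mod_cast hu k
    have h3 : (0 : ℝ) ≤ (b k : ℝ) := Nat.cast_nonneg _
    rw [sub_le_iff_le_add, ← add_div, le_div_iff₀ hn', ← mul_add]
    exact mul_le_mul_of_nonneg_left h2 h3
  have h2 : ∑ k, (b k : ℝ) * (2 * t) / n ≤ 2 * t := by
    rw [← sum_div, ← sum_mul, div_le_iff₀ hn']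
    have h3 : (∑ k, (b k : ℝ)) ≤ n := by exact_mod_cast hb
    have h4 : (0 : ℝ) ≤ 2 * t := by positivity
    calc (∑ k, (b k : ℝ)) * (2 * t) ≤ n * (2 * t) := mul_le_mul_of_nonneg_right h3 h4
      _ = 2 * t * n := by ring
  rw [sum_sub_distrib] at h1
  have h0 : ((∑ k, b k : ℕ) : ℝ) = ∑ k, (b k : ℝ) := Nat.cast_sum _ _
  by_cases hlt : ∑ k, b k ≤ 3 * t
  · refine ⟨0, ?_, by omega⟩
    rw [Nat.cast_zero]
    positivity
  · refine ⟨∑ k, b k - 3 * t, ?_, by omega⟩
    rw [Nat.cast_sub (by omega), h0]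
    push_cast
    have h5 : (0 : ℝ) ≤ t := Nat.cast_nonneg _
    linarith

/-- The main theorem. -/
theorem main {α : Type*} [DecidableEq α] (M N : Matroid α) (n r t : ℕ)
    (T : Fin r → Finset α)
    (hT : ∀ k, M.Indep (↑(T k) : Set α) ∧ N.Indep (↑(T k) : Set α) ∧ (T k).card = n)
    (S : Fin n → Finset α) (c : Fin n → Fin r) (hS : ∀ i, (T (c i) \ S i).card ≤ t) :
    ∃ (J : Finset (Fin n)) (g : Fin n → α), (∀ i ∈ J, g i ∈ S i) ∧
      Set.InjOn g (J : Set (Fin n)) ∧ M.Indep (g '' (J : Set (Fin n))) ∧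
      N.Indep (g '' (J : Set (Fin n))) ∧
      6 * n ≤ 6 * J.card + 18 * t + ∑ k,
        if (univ.filter (fun i => c i = k)).card < 2 * t then
          6 * (univ.filter (fun i => c i = k)).card
        else min (6 * (univ.filter (fun i => c i = k)).card) 31 := by
  classical
  rcases Nat.eq_zero_or_pos n with hn | hn
  · subst hn
    refine ⟨∅, fun i => i.elim0, by simp, by simp, by simp, by simp, Nat.zero_le _⟩
  · have hn' : (0 : ℝ) < n := by exact_mod_cast hn
    set mu : Fin r → ℕ := fun k => (univ.filter (fun i => c i = k)).card with hmu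
    set P : Fin r → Prop := fun k => ¬ mu k < 2 * t ∧ 31 < 6 * mu k with hP
    let κ := {k : Fin r // P k}
    have htot : ∑ k, mu k = n := by
      have h1 := card_eq_sum_card_fiberwise (s := (univ : Finset (Fin n))) (t := univ)
        (f := c) (fun i _ => mem_univ _)
      rw [card_univ, Fintype.card_fin] at h1
      exact h1.symm
    have hKsum : ∑ k : κ, mu k.1 = ∑ k ∈ univ.filter P, mu k :=
      (sum_subtype (univ.filter P) (fun k => by simp) mu).symm
    have hKle : ∑ k : κ, mu k.1 ≤ n := by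
      rw [hKsum]
      exact (sum_le_sum_of_subset (filter_subset _ _)).trans_eq htot
    -- the bad elements
    let I : Fin r → Finset (Fin n) := fun k => univ.filter (fun i => c i = k)
    have hI1 : ∀ k, ∀ i ∈ I k, ((T k).filter (fun x => ¬ x ∈ S i)).card ≤ t := by
      intro k i hi
      have hci : c i = k := (mem_filter.mp hi).2
      refine le_trans (card_le_card ?_) (hS i)
      intro x hx
      obtain ⟨h1, h2⟩ := mem_filter.mp hx
      rw [hci]
      exact mem_sdiff.mpr ⟨h1, h2⟩
    let U : κ → Finset α := fun k =>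
      (T k.1).filter (fun x => ¬ ((I k.1).filter (fun i => x ∈ S i)).card < t)
    have hUT : ∀ k, U k ⊆ T k.1 := fun k => filter_subset _ _
    have hUc : ∀ k : κ, n ≤ (U k).card + 2 * t := by
      intro k
      have h1 := bad_card (fun (x : α) (i : Fin n) => x ∈ S i) t (T k.1) (I k.1)
        (not_lt.mp k.2.1) (hI1 k.1)
      have h2 := card_filter_add_card_filter_not (s := T k.1)
        (fun x => ((I k.1).filter (fun i => x ∈ S i)).card < t)
      rw [(hT k.1).2.2] at h2
      have h3 : (U k).card = ((T k.1).filter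
        (fun x => ¬ ((I k.1).filter (fun i => x ∈ S i)).card < t)).card := rfl
      omega
    -- the total mass
    obtain ⟨L, hL, hLt⟩ := mass (fun k : κ => mu k.1) (fun k : κ => (U k).card) n t hn hKle hUc
    obtain ⟨Z, hZ1, hZ2, hZM, hZN, hZb, hZc⟩ := big (κ := κ) (T := U) M N hn
      (fun k => (hT k.1).1.subset (by exact_mod_cast hUT k))
      (fun k => (hT k.1).2.1.subset (by exact_mod_cast hUT k))
      (fun k => (card_le_card (hUT k)).trans_eq (hT k.1).2.2)
      (fun k => mu k.1) hKle L hL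
    -- indices
    have hemb : ∀ k : κ, ∃ (f : κ × α → Fin n),
        Set.InjOn f (Z.filter (fun p => p.1 = k) : Finset (κ × α)) ∧
        (∀ p ∈ Z.filter (fun p => p.1 = k), f p ∈ I k.1 ∧ p.2 ∈ S (f p)) := by
      intro k
      refine hall (⟨0, hn⟩ : Fin n) (fun p i => p.2 ∈ S i) t (Z.filter (fun p => p.1 = k))
        (I k.1) (hZb k) ?_ ?_
      · intro i hi
        refine le_trans ?_ (hI1 k.1 i hi)
        have h1 : ((Z.filter (fun p => p.1 = k)).filter (fun p => ¬ p.2 ∈ S i)).card =
            (((Z.filter (fun p => p.1 = k)).filter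
              (fun p => ¬ p.2 ∈ S i)).image Prod.snd).card := by
          rw [card_image_of_injOn]
          intro p hp q hq hpq
          have hp' := (mem_filter.mp (mem_filter.mp (mem_coe.mp hp)).1).2
          have hq' := (mem_filter.mp (mem_filter.mp (mem_coe.mp hq)).1).2
          exact Prod.ext (hp'.trans hq'.symm) hpq
        rw [h1]
        refine card_le_card (fun x hx => ?_)
        obtain ⟨p, hp, rfl⟩ := mem_image.mp hx
        obtain ⟨hp1, hp2⟩ := mem_filter.mp hp
        obtain ⟨hp3, hp4⟩ := mem_filter.mp hp1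
        refine mem_filter.mpr ⟨?_, hp2⟩
        have := hUT p.1 (hZ1 p hp3)
        rwa [hp4] at this
      · intro p hp
        obtain ⟨hp3, hp4⟩ := mem_filter.mp hp
        have h1 := (mem_filter.mp (hZ1 p hp3)).2
        rw [hp4] at h1
        exact not_lt.mp h1
    choose f hfinj hfS using hemb
    have hφc : ∀ p ∈ Z, c (f p.1 p) = p.1.1 :=
      fun p hp => (mem_filter.mp (hfS p.1 p (mem_filter.mpr ⟨hp, rfl⟩)).1).2
    have hφinj : Set.InjOn (fun p => f p.1 p) (Z : Set (κ × α)) := by
      intro p hp q hq hpq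
      have hp' := mem_coe.mp hp
      have hq' := mem_coe.mp hq
      have hpq' : f p.1 p = f q.1 q := hpq
      have h1 : p.1 = q.1 := by
        apply Subtype.ext
        rw [← hφc p hp', ← hφc q hq', hpq']
      refine hfinj p.1 (mem_coe.mpr (mem_filter.mpr ⟨hp', rfl⟩))
        (mem_coe.mpr (mem_filter.mpr ⟨hq', h1.symm⟩)) ?_
      rw [hpq', h1]
    -- inverse
    have hα : Nonempty α := by
      have h1 := (hT (c ⟨0, hn⟩)).2.2
      obtain ⟨x, _⟩ := card_pos.mp (by rw [h1]; exact hn)
      exact ⟨x⟩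
    obtain ⟨a0⟩ := hα
    set J : Finset (Fin n) := Z.image (fun p => f p.1 p) with hJ
    set g : Fin n → α := fun i => if h : ∃ p ∈ Z, f p.1 p = i then h.choose.2 else a0 with hg
    have hgval : ∀ p ∈ Z, g (f p.1 p) = p.2 := by
      intro p hp
      have hex : ∃ q ∈ Z, f q.1 q = f p.1 p := ⟨p, hp, rfl⟩
      rw [hg]
      dsimp only
      rw [dif_pos hex]
      have h1 := hex.choose_spec
      rw [hφinj (mem_coe.mpr h1.1) (mem_coe.mpr hp) h1.2]
    have himg : g '' (J : Set (Fin n)) ⊆ ((Z.image Prod.snd : Finset α) : Set α) := by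
      rintro x ⟨i, hi, rfl⟩
      obtain ⟨p, hp, rfl⟩ := mem_image.mp (mem_coe.mp hi)
      rw [hgval p hp]
      exact mem_coe.mpr (mem_image_of_mem _ hp)
    refine ⟨J, g, ?_, ?_, hZM.subset himg, hZN.subset himg, ?_⟩
    · intro i hi
      obtain ⟨p, hp, rfl⟩ := mem_image.mp hi
      rw [hgval p hp]
      exact (hfS p.1 p (mem_filter.mpr ⟨hp, rfl⟩)).2
    · intro i hi j hj hij
      obtain ⟨p, hp, rfl⟩ := mem_image.mp (mem_coe.mp hi)
      obtain ⟨q, hq, rfl⟩ := mem_image.mp (mem_coe.mp hj)
      rw [hgval p hp, hgval q hq] at hij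
      rw [hZ2 (mem_coe.mpr hp) (mem_coe.mpr hq) hij]
    · have hJc : J.card = Z.card := card_image_of_injOn hφinj
      rw [hJc]
      have hκ : Fintype.card κ = (univ.filter P).card := Fintype.card_subtype _
      have hsplit : ∀ F : Fin r → ℕ, ∑ k, F k =
          ∑ k ∈ univ.filter P, F k + ∑ k ∈ univ.filter (fun k => ¬ P k), F k :=
        fun F => (sum_filter_add_sum_filter_not _ _ _).symm
      have h5 : ∑ k ∈ univ.filter P, (if mu k < 2 * t then 6 * mu k else min (6 * mu k) 31) =
          31 * Fintype.card κ := by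
        rw [sum_congr rfl (g := fun _ => 31) (fun k hk => ?_), sum_const, smul_eq_mul, hκ,
          mul_comm]
        have hk' : P k := (mem_filter.mp hk).2
        rw [if_neg hk'.1]
        exact min_eq_right hk'.2.le
      have h6 : ∑ k ∈ univ.filter (fun k => ¬ P k),
          (if mu k < 2 * t then 6 * mu k else min (6 * mu k) 31) =
          6 * ∑ k ∈ univ.filter (fun k => ¬ P k), mu k := by
        rw [mul_sum]
        refine sum_congr rfl (fun k hk => ?_)
        have hk' : ¬ P k := (mem_filter.mp hk).2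
        split_ifs with h1
        · rfl
        · refine min_eq_left ?_
          by_contra h2
          exact hk' ⟨h1, not_le.mp h2⟩
      have h4 := hsplit mu
      rw [htot] at h4
      have h8 : 6 * n ≤ 6 * Z.card + 18 * t +
          ∑ k, (if mu k < 2 * t then 6 * mu k else min (6 * mu k) 31) := by
        rw [hsplit (fun k => if mu k < 2 * t then 6 * mu k else min (6 * mu k) 31), h5, h6]
        rw [hKsum] at hLt
        omega
      exact h8

end Pool.Agent.H31F
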