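import Mathlib

/-!
# Few distinct sets, part 3: two matchings decompose a finite set into paths and even cycles
-/

set_option autoImplicit false

namespace Pool.Agent.H31F

open Finset

/-- Two partial matchings. -/
structure Two {α : Type*} (A B : α → α → Prop) : Prop where
  sA : ∀ x y, A x y → A y x
  sB : ∀ x y, B x y → B y x
  iA : ∀ x, ¬ A x x
  iB : ∀ x, ¬ B x x
  uA : ∀ x y z, A x y → A x z → y = z
  uB : ∀ x y z, B x y → B x z → y = z

theorem Two.swap {α : Type*} {A B : α → α → Prop} (h : Two A B) : Two B A :=
  ⟨h.sB, h.sA, h.iB, h.iA, h.uB, h.uA⟩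

/-- Adjacent. -/
def Adj {α : Type*} (A B : α → α → Prop) (x y : α) : Prop := A x y ∨ B x y

theorem adj_symm {α : Type*} {A B : α → α → Prop} (h : Two A B) {x y : α} (hxy : Adj A B x y) :
    Adj A B y x := hxy.elim (fun a => Or.inl (h.sA _ _ a)) (fun b => Or.inr (h.sB _ _ b))

theorem adj_irr {α : Type*} {A B : α → α → Prop} (h : Two A B) (x : α) : ¬ Adj A B x x :=
  fun hx => hx.elim (h.iA x) (h.iB x)

theorem deg2 {α : Type*} {A B : α → α → Prop} (h : Two A B) {x u v w : α}
    (hu : Adj A B x u) (hv : Adj A B x v) (hw : Adj A B x w) : u = v ∨ u = w ∨ v = w := by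
  rcases hu with a | a <;> rcases hv with b | b <;> rcases hw with c | c
  · exact Or.inl (h.uA _ _ _ a b)
  · exact Or.inl (h.uA _ _ _ a b)
  · exact Or.inr (Or.inl (h.uA _ _ _ a c))
  · exact Or.inr (Or.inr (h.uB _ _ _ b c))
  · exact Or.inr (Or.inr (h.uA _ _ _ b c))
  · exact Or.inr (Or.inl (h.uB _ _ _ a c))
  · exact Or.inl (h.uB _ _ _ a b)
  · exact Or.inl (h.uB _ _ _ a b)

/-- A path in `G`. -/
structure Pa {α : Type*} (A B : α → α → Prop) (G : Finset α) (L : ℕ) (h : ℕ → α) : Prop where
  mem : ∀ i, i < L → h i ∈ G
  inj : ∀ i j, i < L → j < L → h i = h j → i = j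
  adj : ∀ i, i + 1 < L → Adj A B (h i) (h (i + 1))

theorem Pa.len {α : Type*} [DecidableEq α] {A B : α → α → Prop} {G : Finset α} {L : ℕ}
    {h : ℕ → α} (hp : Pa A B G L h) : L ≤ G.card := by
  have h1 : ((range L).image h).card = L := by
    rw [card_image_of_injOn, card_range]
    intro i hi j hj hij
    have h2 : i < L := by simpa using hi
    have h3 : j < L := by simpa using hj
    exact hp.inj i j h2 h3 hij
  rw [← h1]
  refine card_le_card (fun x hx => ?_)
  obtain ⟨i, hi, rfl⟩ := mem_image.mp hx
  exact hp.mem i (mem_range.mp hi)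

theorem alt {α : Type*} {A B : α → α → Prop} (hT : Two A B) {L : ℕ} {h : ℕ → α}
    (inj : ∀ i j, i < L → j < L → h i = h j → i = j)
    (adj : ∀ i, i + 1 < L → Adj A B (h i) (h (i + 1))) (h0 : A (h 0) (h 1)) :
    ∀ i, i + 1 < L → (Even i → A (h i) (h (i + 1))) ∧ (¬ Even i → B (h i) (h (i + 1))) := by
  intro i
  induction i with
  | zero =>
    intro _
    exact ⟨fun _ => h0, fun h => absurd Even.zero h⟩
  | succ i ih =>
    intro hi
    have h1 := ih (by omega)
    have h2 := adj (i + 1) hi
    constructor
    · intro he
      have hne : ¬ Even i := by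
        rwa [Nat.even_add_one] at he
      have h3 := h1.2 hne
      rcases h2 with h2 | h2
      · exact h2
      · exfalso
        have := inj _ _ (by omega) (by omega) (hT.uB _ _ _ (hT.sB _ _ h3) h2)
        omega
    · intro he
      have hne : Even i := by
        rwa [Nat.even_add_one, not_not] at he
      have h3 := h1.1 hne
      rcases h2 with h2 | h2
      · exfalso
        have := inj _ _ (by omega) (by omega) (hT.uA _ _ _ (hT.sA _ _ h3) h2)
        omega
      · exact h2

theorem even_of {α : Type*} {A B : α → α → Prop} (hT : Two A B) {L : ℕ} {h : ℕ → α}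
    (inj : ∀ i j, i < L → j < L → h i = h j → i = j)
    (adj : ∀ i, i + 1 < L → Adj A B (h i) (h (i + 1))) (h3 : 3 ≤ L) (h0 : A (h 0) (h 1))
    (hc : Adj A B (h 0) (h (L - 1))) : Even L := by
  have hB : B (h 0) (h (L - 1)) := by
    rcases hc with hc | hc
    · exfalso
      have := inj _ _ (by omega) (by omega) (hT.uA _ _ _ h0 hc)
      omega
    · exact hc
  have hal := alt hT inj adj h0 (L - 2) (by omega)
  have e1 : L - 2 + 1 = L - 1 := by omega
  rw [e1] at hal
  by_contra hodd
  have hne : ¬ Even (L - 2) := by
    intro hev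
    apply hodd
    obtain ⟨t, ht⟩ := hev
    exact ⟨t + 1, by omega⟩
  have := inj _ _ (by omega) (by omega)
    (hT.uB _ _ _ (hT.sB _ _ (hal.2 hne)) (hT.sB _ _ hB))
  omega

/-- Neighbours of the vertices of a longest path. -/
theorem longest {α : Type*} [DecidableEq α] {A B : α → α → Prop} (hT : Two A B) {G : Finset α}
    {L : ℕ} {h : ℕ → α} (hp : Pa A B G L h)
    (hmax : ∀ L' h', Pa A B G L' h' → L' ≤ L) {i : ℕ} (hi : i < L) {y : α} (hy : y ∈ G)
    (hiy : Adj A B (h i) y) :
    ∃ j, j < L ∧ y = h j ∧ (j = i + 1 ∨ i = j + 1 ∨ (i = 0 ∧ j = L - 1) ∨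
      (j = 0 ∧ i = L - 1)) := by
  -- interior vertices
  have hint : ∀ i, 0 < i → i + 1 < L → ∀ y, Adj A B (h i) y → y = h (i - 1) ∨ y = h (i + 1) := by
    intro i h0 h1 y hy
    have e1 : i - 1 + 1 = i := by omega
    have a1 := hp.adj (i - 1) (by omega)
    rw [e1] at a1
    rcases deg2 hT hy (adj_symm hT a1) (hp.adj i h1) with h2 | h2 | h2
    · exact Or.inl h2
    · exact Or.inr h2
    · have := hp.inj _ _ (by omega) (by omega) h2
      omega
  by_cases hi0 : i = 0
  · subst hi0
    have hmem : ∃ j, j < L ∧ y = h j := by
      by_contra hcon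
      push Not at hcon
      have := hmax (L + 1) (fun t => if t = 0 then y else h (t - 1)) (by
        refine ⟨?_, ?_, ?_⟩
        · intro t ht
          split_ifs with h1
          · exact hy
          · exact hp.mem _ (by omega)
        · intro s t hs ht hst
          split_ifs at hst with h1 h2 h2
          · omega
          · exact absurd hst (hcon _ (by omega))
          · exact absurd hst.symm (hcon _ (by omega))
          · have := hp.inj _ _ (by omega) (by omega) hst
            omega
        · intro t ht
          rw [if_neg (by omega : ¬ t + 1 = 0)]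
          split_ifs with h1
          · subst h1
            exact adj_symm hT hiy
          · have e1 : t + 1 - 1 = t - 1 + 1 := by omega
            rw [e1]
            exact hp.adj _ (by omega))
      omega
    obtain ⟨j, hj, rfl⟩ := hmem
    refine ⟨j, hj, rfl, ?_⟩
    rcases Nat.eq_zero_or_pos j with hj0 | hj0
    · subst hj0
      exact absurd hiy (adj_irr hT _)
    · by_cases hj1 : j + 1 < L
      · rcases hint j hj0 hj1 _ (adj_symm hT hiy) with h2 | h2
        · have := hp.inj _ _ (by omega) (by omega) h2
          left
          omega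
        · have := hp.inj _ _ (by omega) (by omega) h2
          omega
      · right; right; left
        omega
  · by_cases hi1 : i + 1 < L
    · rcases hint i (by omega) hi1 y hiy with h2 | h2
      · exact ⟨i - 1, by omega, h2, by omega⟩
      · exact ⟨i + 1, by omega, h2, by omega⟩
    · have hiL : i = L - 1 := by omega
      have hmem : ∃ j, j < L ∧ y = h j := by
        by_contra hcon
        push Not at hcon
        have := hmax (L + 1) (fun t => if t < L then h t else y) (by
          refine ⟨?_, ?_, ?_⟩
          · intro t ht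
            split_ifs with h1
            · exact hp.mem _ h1
            · exact hy
          · intro s t hs ht hst
            split_ifs at hst with h1 h2 h2
            · exact hp.inj _ _ h1 h2 hst
            · exact absurd hst.symm (hcon _ h1)
            · exact absurd hst (hcon _ h2)
            · omega
          · intro t ht
            rw [if_pos (by omega : t < L)]
            split_ifs with h1
            · exact hp.adj _ h1
            · have : t = i := by omega
              rw [this]
              exact hiy)
        omega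
      obtain ⟨j, hj, rfl⟩ := hmem
      refine ⟨j, hj, rfl, ?_⟩
      rcases Nat.eq_zero_or_pos j with hj0 | hj0
      · right; right; right
        exact ⟨hj0, hiL⟩
      · by_cases hj1 : j + 1 < L
        · rcases hint j hj0 hj1 _ (adj_symm hT hiy) with h2 | h2
          · have := hp.inj _ _ (by omega) (by omega) h2
            omega
          · have := hp.inj _ _ (by omega) (by omega) h2
            right; left
            omega
        · have : j = i := by omega
          subst this
          exact absurd hiy (adj_irr hT _)

/-- The decomposition. -/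
structure Dec {α : Type*} (A B : α → α → Prop) (G : Finset α) (ι : Type) (m : ι → ℕ)
    (h : ι → ℕ → α) (cl : ι → Prop) : Prop where
  mem : ∀ p i, i < m p → h p i ∈ G
  inj : ∀ p q i j, i < m p → j < m q → h p i = h q j → p = q ∧ i = j
  sur : ∀ x ∈ G, ∃ p i, i < m p ∧ h p i = x
  adj : ∀ p i, i + 1 < m p → Adj A B (h p i) (h p (i + 1))
  loc : ∀ p q i j, i < m p → j < m q → Adj A B (h p i) (h q j) → p = q ∧
    (j = i + 1 ∨ i = j + 1 ∨ (cl p ∧ ((i = 0 ∧ j = m p - 1) ∨ (j = 0 ∧ i = m p - 1))))
  evn : ∀ p, cl p → Even (m p)

theorem decomp {α : Type*} [DecidableEq α] {A B : α → α → Prop} (hT : Two A B) (n : ℕ) :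
    ∀ G : Finset α, G.card = n →
    ∃ (ι : Type) (_ : Fintype ι) (m : ι → ℕ) (h : ι → ℕ → α) (cl : ι → Prop),
      Dec A B G ι m h cl := by
  classical
  induction n using Nat.strong_induction_on with
  | _ n ih =>
    intro G hG
    rcases G.eq_empty_or_nonempty with rfl | ⟨x0, hx0⟩
    · refine ⟨Empty, inferInstance, fun _ => 0, fun p => p.elim, fun _ => False, ?_⟩
      refine ⟨fun p => p.elim, fun p => p.elim, ?_, fun p => p.elim, fun p => p.elim,
        fun p => p.elim⟩
      intro x hx
      simp at hx
    · have hP1 : ∃ h, Pa A B G 1 h := by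
        refine ⟨fun _ => x0, fun _ _ => hx0, ?_, ?_⟩
        · intro i j hi hj _
          omega
        · intro i hi
          omega
      have hG1 : 1 ≤ G.card := card_pos.mpr ⟨x0, hx0⟩
      obtain ⟨L, hL, h, hp, hmax⟩ : ∃ L, 1 ≤ L ∧ ∃ h, Pa A B G L h ∧
          ∀ L' h', Pa A B G L' h' → L' ≤ L := by
        refine ⟨Nat.findGreatest (fun L => ∃ h, Pa A B G L h) G.card,
          Nat.le_findGreatest hG1 hP1, ?_⟩
        obtain ⟨h, hh⟩ := Nat.findGreatest_spec (P := fun L => ∃ h, Pa A B G L h) hG1 hP1
        refine ⟨h, hh, ?_⟩
        intro L' h' hp'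
        exact Nat.le_findGreatest hp'.len ⟨h', hp'⟩
      have hlt : (G \ (range L).image h).card < n := by
        rw [← hG]
        refine card_lt_card ?_
        rw [ssubset_iff_of_subset sdiff_subset]
        refine ⟨h 0, hp.mem 0 (by omega), ?_⟩
        rw [mem_sdiff, not_and, not_not]
        intro _
        exact mem_image.mpr ⟨0, mem_range.mpr (by omega), rfl⟩
      obtain ⟨ι, hι, m, g, cl, hd⟩ := ih _ hlt (G \ (range L).image h) rfl
      have hout : ∀ q j, j < m q → ∀ i, i < L → g q j ≠ h i := by
        intro q j hj i hi heq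
        have := hd.mem q j hj
        rw [mem_sdiff] at this
        exact this.2 (mem_image.mpr ⟨i, mem_range.mpr hi, heq.symm⟩)
      refine ⟨Option ι, inferInstance, fun p => p.elim L m, fun p => p.elim h g,
        fun p => p.elim (3 ≤ L ∧ Adj A B (h 0) (h (L - 1))) cl, ?_⟩
      refine ⟨?_, ?_, ?_, ?_, ?_, ?_⟩
      · rintro (_ | p) i hi
        · exact hp.mem i hi
        · exact (mem_sdiff.mp (hd.mem p i hi)).1
      · rintro (_ | p) (_ | q) i j hi hj hij
        · exact ⟨rfl, hp.inj i j hi hj hij⟩
        · exact absurd hij.symm (hout q j hj i hi)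
        · exact absurd hij (hout p i hi j hj)
        · obtain ⟨h1, h2⟩ := hd.inj p q i j hi hj hij
          exact ⟨congrArg some h1, h2⟩
      · intro x hx
        by_cases hxP : x ∈ (range L).image h
        · obtain ⟨i, hi, rfl⟩ := mem_image.mp hxP
          exact ⟨none, i, mem_range.mp hi, rfl⟩
        · obtain ⟨p, i, hi, hx'⟩ := hd.sur x (mem_sdiff.mpr ⟨hx, hxP⟩)
          exact ⟨some p, i, hi, hx'⟩
      · rintro (_ | p) i hi
        · exact hp.adj i hi
        · exact hd.adj p i hi
      · rintro (_ | p) (_ | q) i j hi hj hij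
        · refine ⟨rfl, ?_⟩
          change i < L at hi
          change j < L at hj
          change Adj A B (h i) (h j) at hij
          obtain ⟨j', hj', hjj, hcase⟩ := longest hT hp hmax hi (hp.mem j hj) hij
          have : j = j' := hp.inj _ _ hj hj' hjj
          subst this
          rcases hcase with h1 | h1 | ⟨h1, h2⟩ | ⟨h1, h2⟩
          · exact Or.inl h1
          · exact Or.inr (Or.inl h1)
          · by_cases h3 : 3 ≤ L
            · right; right
              refine ⟨⟨h3, ?_⟩, Or.inl ⟨h1, h2⟩⟩
              rw [h1, h2] at hij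
              exact hij
            · have hne : i ≠ j := fun h4 => adj_irr hT _ (h4 ▸ hij)
              left
              omega
          · by_cases h3 : 3 ≤ L
            · right; right
              refine ⟨⟨h3, ?_⟩, Or.inr ⟨h1, h2⟩⟩
              rw [h1, h2] at hij
              exact adj_symm hT hij
            · have hne : i ≠ j := fun h4 => adj_irr hT _ (h4 ▸ hij)
              right; left
              omega
        · exfalso
          change i < L at hi
          change j < m q at hj
          change Adj A B (h i) (g q j) at hij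
          obtain ⟨j', hj', hjj, _⟩ :=
            longest hT hp hmax hi (mem_sdiff.mp (hd.mem q j hj)).1 hij
          exact hout q j hj j' hj' hjj
        · exfalso
          change i < m p at hi
          change j < L at hj
          change Adj A B (g p i) (h j) at hij
          obtain ⟨j', hj', hjj, _⟩ :=
            longest hT hp hmax hj (mem_sdiff.mp (hd.mem p i hi)).1 (adj_symm hT hij)
          exact hout p i hi j' hj' hjj
        · obtain ⟨h1, h2⟩ := hd.loc p q i j hi hj hij
          exact ⟨congrArg some h1, h2⟩
      · rintro (_ | p) hc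
        · obtain ⟨h3, hc⟩ := hc
          change Even L
          rcases hp.adj 0 (by omega) with h0 | h0
          · exact even_of hT hp.inj hp.adj h3 h0 hc
          · exact even_of hT.swap hp.inj (fun i hi => (hp.adj i hi).symm) h3 h0 hc.symm
        · exact hd.evn p hc

end Pool.Agent.H31F
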